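import Pool.Agent.H831R3.LC.Main

/-!
# Project JL: joint and `k`-error linear complexity of digit sequences (statements)

Owner: helper47.  Joint linear complexity of the digits of `e, e², …, eⁿ` and the `k`-error linear
complexity of `e`, `π`, `√2`.
-/

set_option autoImplicit false

namespace Pool.Agent.W47.JL

open Finset Polynomial
open Pool.Agent.H831R3.LC (W dig)

/-- Joint Siegel lemma: a common recurrence of order `m` over `ℚ` of `J` bounded integer sequences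
gives a common integer relation of degree `≤ m + k` with small coefficients. -/
def S_SMALL : Prop := ∀ (J : ℕ) (a : Fin J → ℕ → ℤ) (B : ℕ), 1 ≤ B → (∀ j i, |a j i| ≤ B) →
  ∀ (m k r L K : ℕ), 1 ≤ k → m + 1 ≤ K * k → r + (m + k) ≤ L → ∀ c : ℕ → ℚ,
  (∀ j i, i + m < L → (a j (i + m) : ℚ) = ∑ l ∈ range m, c l * (a j (i + l) : ℚ)) →
  ∃ t : ℤ[X], t ≠ 0 ∧ t.natDegree ≤ m + k ∧ (∀ i, |t.coeff i| ≤ (((m + 1 + k) * B) ^ K : ℕ)) ∧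
    ∀ j, ∀ i < r, W t (a j) i = 0

/-- Division by `X - b`, jointly. -/
def S_DESC : Prop := ∀ (J : ℕ) (a : Fin J → ℕ → ℤ) (B b H M r : ℕ), 2 ≤ b →
  (∀ j i, |a j i| ≤ B) → (M + 1) * H * B < b ^ r →
  ∀ t : ℤ[X], t.natDegree ≤ M → t ≠ 0 → (∀ i, |t.coeff i| ≤ H) →
    (∀ j, ∀ i < r, W t (a j) i = 0) →
    ∃ s : ℤ[X], s.natDegree ≤ M ∧ (∀ i, |s.coeff i| ≤ H) ∧ (∀ j, ∀ i < r, W s (a j) i = 0) ∧
      s.eval (b : ℤ) ≠ 0

/-- Rational approximation of `x` from a relation of a sequence `s` which agrees with the digits of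
`x` on the places `u ≤ i < v`. -/
def S_APPROX : Prop := ∀ (x : ℝ) (b H r D u v : ℕ) (s : ℕ → ℤ) (t : ℤ[X]), 1 ≤ b →
  (∀ i, |t.coeff i| ≤ H) → t.natDegree ≤ D → (∀ i < r, W t s i = 0) →
  (∀ i, u ≤ i → i < v → s i = dig x b (i + 1)) → u + D ≤ v → v ≤ r + D →
  ∃ p : ℤ, |((t.eval (b : ℤ) : ℤ) : ℝ) * (b : ℝ) ^ u * x - p| * (b : ℝ) ^ (v - D - u)
    ≤ (D + 1) * H

/-- Hermite's polynomials -/
noncomputable def f (n N k : ℕ) : ℤ[X] :=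
  ∏ i ∈ range (n + 1), (X - C (i : ℤ)) ^ (if i = k then N - 1 else N)

/-- divisibility and congruences -/
def S_DIV : Prop := ∀ n N k j : ℕ, 1 ≤ N → k ≤ n → j ≤ n →
  ∃ z : ℤ, (sumIDeriv (f n N k)).eval (j : ℤ) = ((N - 1).factorial : ℤ) * z ∧
    (k ≠ j → (N : ℤ) ∣ z) ∧
    (k = j → ∃ w : ℤ, z = ∏ i ∈ (range (n + 1)).erase k, ((k : ℤ) - i) ^ N + N * w)

/-- size of the values at `0` -/
def S_SIZE : Prop := ∀ n : ℕ, ∃ C : ℝ, 1 ≤ C ∧ ∀ N k : ℕ, 1 ≤ N → k ≤ n →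
  |(((sumIDeriv (f n N k)).eval 0 : ℤ) : ℝ)| ≤ C ^ N * (N.factorial : ℝ) ^ (n + 1)

/-- the analytic estimate -/
def S_INT : Prop := ∀ n : ℕ, ∃ C : ℝ, 1 ≤ C ∧ ∀ N k j : ℕ, 1 ≤ N → k ≤ n → j ≤ n →
  |(((sumIDeriv (f n N k)).eval 0 : ℤ) : ℝ) * Real.exp j
    - (((sumIDeriv (f n N k)).eval (j : ℤ) : ℤ) : ℝ)| ≤ C ^ N

/-- Hermite's approximations to the powers of `e` -/
def S_HERM : Prop := ∀ n : ℕ, ∃ C : ℝ, 1 ≤ C ∧ ∀ N : ℕ, 2 ≤ N →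
  N % n.factorial = 1 % n.factorial →
  ∃ P : Fin (n + 1) → Fin (n + 1) → ℤ, (Matrix.of P).det ≠ 0 ∧
    (∀ k, |(P k 0 : ℝ)| ≤ C ^ N * (N.factorial : ℝ) ^ n) ∧
    ∀ k j : Fin (n + 1), |(P k 0 : ℝ) * Real.exp ((j : ℕ) : ℝ) - P k j| ≤ C ^ N / N.factorial

/-- measure of linear independence of the powers of `e` -/
def S_LIN : Prop := ∀ (n : ℕ) (ε : ℝ), 0 < ε → ∃ c : ℝ, 0 < c ∧ ∀ a : ℕ → ℤ,
  (∃ i ≤ n, a i ≠ 0) → ∀ H : ℝ, 1 ≤ H → (∀ i ≤ n, |(a i : ℝ)| ≤ H) →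
  c ≤ H ^ ((n : ℝ) + ε) * |∑ i ∈ range (n + 1), (a i : ℝ) * Real.exp i|

/-- simultaneous approximation of the powers of `e` -/
def S_SIM : Prop := ∀ (n : ℕ) (ε : ℝ), 1 ≤ n → 0 < ε → ∃ c : ℝ, 0 < c ∧ ∀ q : ℕ, 1 ≤ q →
  ∀ p : ℕ → ℤ, ∃ j : ℕ, 1 ≤ j ∧ j ≤ n ∧
    c ≤ (q : ℝ) ^ (1 / (n : ℝ) + ε) * |q * Real.exp j - p j|

/-- Hermite's approximations give the measure of linear independence -/
def S_HL : Prop := S_HERM → S_LIN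

/-- transference -/
def S_TRANS : Prop := S_LIN → S_SIM

/-- assembly of Hermite's approximations -/
def S_HA : Prop := S_DIV → S_SIZE → S_INT → S_HERM

end Pool.Agent.W47.JL
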