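import Pool.Agent.W47.JL.Num

/-!
# Project JL: the general theorem
-/

set_option autoImplicit false

namespace Pool.Agent.W47.JL

open Finset Polynomial
open Pool.Agent.H831R3.LC (W dig dig_abs)

/-- joint irrationality measure -/
def Meas (J : ℕ) (x : Fin J → ℝ) (μ c0 A : ℝ) : Prop :=
  ∀ q : ℕ, 1 ≤ q → ∀ p : Fin J → ℤ, ∃ j : Fin J,
    c0 ≤ (q : ℝ) ^ (μ - 1) * (1 + Real.log q) ^ A * |q * x j - p j|

/-- the quantity `M1` -/
noncomputable def M1 (b m k K : ℕ) : ℝ :=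
  ((m : ℝ) + k) + Real.log (((m : ℝ) + k + 1) * (((m : ℝ) + 1 + k) * b) ^ K) / Real.log b

lemma M1_ge (b m k K : ℕ) (hb : 2 ≤ b) : ((m : ℝ) + k) ≤ M1 b m k K := by
  unfold M1
  have hbR : (2 : ℝ) ≤ b := by exact_mod_cast hb
  have hm0 : (0 : ℝ) ≤ m := Nat.cast_nonneg m
  have hk0 : (0 : ℝ) ≤ k := Nat.cast_nonneg k
  have h1 : 0 ≤ Real.log (((m : ℝ) + k + 1) * (((m : ℝ) + 1 + k) * b) ^ K) := by
    apply Real.log_nonneg
    have h2 : (1 : ℝ) ≤ (((m : ℝ) + 1 + k) * b) ^ K := one_le_pow₀ (by nlinarith)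
    nlinarith
  have h2 : 0 ≤ Real.log b := Real.log_nonneg (by linarith)
  have := div_nonneg h1 h2
  linarith

/-- the size of the value at `b` -/
lemma eval_le (s : ℤ[X]) (H D b : ℕ) (hb : 1 ≤ b) (hs : ∀ i, |s.coeff i| ≤ H)
    (hd : s.natDegree ≤ D) : |s.eval (b : ℤ)| ≤ (D + 1) * H * (b : ℤ) ^ D := by
  rw [eval_eq_sum_range]
  calc |∑ j ∈ range (s.natDegree + 1), s.coeff j * (b : ℤ) ^ j|
      ≤ ∑ j ∈ range (s.natDegree + 1), |s.coeff j * (b : ℤ) ^ j| :=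
        Finset.abs_sum_le_sum_abs _ _
    _ ≤ ∑ _j ∈ range (s.natDegree + 1), (H : ℤ) * (b : ℤ) ^ D := by
        refine Finset.sum_le_sum fun j hj => ?_
        rw [mem_range] at hj
        rw [abs_mul, abs_of_nonneg (by positivity : (0 : ℤ) ≤ (b : ℤ) ^ j)]
        refine mul_le_mul (hs j) ?_ (by positivity) (by positivity)
        exact pow_le_pow_right₀ (by omega) (by omega)
    _ = (s.natDegree + 1 : ℕ) * H * (b : ℤ) ^ D := by
        rw [Finset.sum_const, card_range, nsmul_eq_mul]; ring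
    _ ≤ (D + 1) * H * (b : ℤ) ^ D := by
        have : ((s.natDegree + 1 : ℕ) : ℤ) ≤ (D + 1) := by
          exact_mod_cast (by omega : s.natDegree + 1 ≤ D + 1)
        gcongr

/-- inequality for a gap between two errors -/
theorem gap (hAP : S_APPROX) (J : ℕ) (x : Fin J → ℝ) (μ c0 A : ℝ) (hμ : 1 < μ) (hc0 : 0 < c0)
    (hA0 : 0 ≤ A) (hM : Meas J x μ c0 A) (b : ℕ) (hb : 2 ≤ b) (m k L K : ℕ)
    (hL : m + k ≤ L) (s : Fin J → ℕ → ℤ) (t : ℤ[X]) (htd : t.natDegree ≤ m + k)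
    (htH : ∀ i, |t.coeff i| ≤ (((m + 1 + k) * b) ^ K : ℕ))
    (htr : ∀ j, ∀ i < L - (m + k), W t (s j) i = 0) (ht0 : t.eval (b : ℤ) ≠ 0)
    (u v : ℕ) (huv : u ≤ v) (hvL : v ≤ L)
    (hdig : ∀ i, u ≤ i → i < v → ∀ j, s j i = dig (x j) b (i + 1)) :
    (v : ℝ) ≤ μ * (u + M1 b m k K) + (3 / 2 * A) * Real.log (1 + (u + M1 b m k K)) +
      (A + 3 / 2 * |Real.log c0|) := by
  have hbR : (2 : ℝ) ≤ b := by exact_mod_cast hb
  have hb0 : (0 : ℝ) < b := by linarith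
  have hm0 : (0 : ℝ) ≤ m := Nat.cast_nonneg m
  have hk0 : (0 : ℝ) ≤ k := Nat.cast_nonneg k
  have hu0 : (0 : ℝ) ≤ u := Nat.cast_nonneg u
  have hM1 := M1_ge b m k K hb
  obtain ⟨T, hT⟩ : ∃ T : ℝ, T = u + M1 b m k K := ⟨_, rfl⟩
  rw [← hT]
  have hT0 : 0 ≤ T := by rw [hT]; linarith
  have hlT0 : 0 ≤ Real.log (1 + T) := Real.log_nonneg (by linarith)
  have hlb : 0.69 ≤ Real.log b := by
    have h1 := Real.log_two_gt_d9
    have h2 := Real.log_le_log (by norm_num : (0 : ℝ) < 2) hbR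
    linarith
  have hlb0 : 0 < Real.log b := by linarith
  have hc00 := abs_nonneg (Real.log c0)
  rcases lt_or_ge v (u + (m + k)) with hv | hv
  · have h1 : (v : ℝ) ≤ T := by
      have : (v : ℝ) ≤ u + (m + k) := by exact_mod_cast hv.le
      rw [hT]; linarith
    have h2 : T ≤ μ * T := by nlinarith
    have h3 : 0 ≤ (3 / 2 * A) * Real.log (1 + T) := by positivity
    linarith
  -- the approximations
  have happ : ∀ j : Fin J, ∃ p : ℤ, |((t.eval (b : ℤ) : ℤ) : ℝ) * (b : ℝ) ^ u * x j - p|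
      * (b : ℝ) ^ (v - (m + k) - u) ≤ ((m + k : ℕ) + 1) * (((m + 1 + k) * b) ^ K : ℕ) := by
    intro j
    exact hAP (x j) b (((m + 1 + k) * b) ^ K) (L - (m + k)) (m + k) u v (s j) t (by omega) htH htd
      (htr j) (fun i h1 h2 => hdig i h1 h2 j) hv (by omega)
  choose p hp using happ
  obtain ⟨q, hq⟩ : ∃ q : ℕ, q = (t.eval (b : ℤ)).natAbs * b ^ u := ⟨_, rfl⟩
  have hq1 : 1 ≤ q := by
    rw [hq]
    exact Nat.mul_pos (Int.natAbs_pos.2 ht0) (by positivity)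
  have hqR : (q : ℝ) = |((t.eval (b : ℤ) : ℤ) : ℝ)| * (b : ℝ) ^ u := by
    rw [hq]; push_cast
    rw [Nat.cast_natAbs, Int.cast_abs]
  have hq1R : (1 : ℝ) ≤ q := by exact_mod_cast hq1
  obtain ⟨X, hX⟩ : ∃ X : ℝ, X = ((m : ℝ) + k + 1) * (((m : ℝ) + 1 + k) * b) ^ K := ⟨_, rfl⟩
  have hX0 : 0 < X := by rw [hX]; positivity
  have hXe : (((m + k : ℕ) : ℝ) + 1) * (((m + 1 + k) * b) ^ K : ℕ) = X := by
    rw [hX]; push_cast; ring
  have hqle : (q : ℝ) ≤ X * (b : ℝ) ^ (m + k + u) := by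
    have h1 := eval_le t (((m + 1 + k) * b) ^ K) (m + k) b (by omega) htH htd
    have h2 : |((t.eval (b : ℤ) : ℤ) : ℝ)| ≤ X * (b : ℝ) ^ (m + k) := by
      rw [← hXe]
      exact_mod_cast h1
    rw [hqR, pow_add]
    calc |((t.eval (b : ℤ) : ℤ) : ℝ)| * (b : ℝ) ^ u ≤ X * (b : ℝ) ^ (m + k) * (b : ℝ) ^ u :=
          mul_le_mul_of_nonneg_right h2 (by positivity)
      _ = _ := by ring
  have hqx : ∀ j, ∃ p' : ℤ, |(q : ℝ) * x j - p'| =
      |((t.eval (b : ℤ) : ℤ) : ℝ) * (b : ℝ) ^ u * x j - p j| := by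
    intro j
    rcases abs_cases ((t.eval (b : ℤ) : ℤ) : ℝ) with ⟨h1, _⟩ | ⟨h1, _⟩
    · exact ⟨p j, by rw [hqR, h1]⟩
    · refine ⟨-p j, ?_⟩
      rw [hqR, h1, ← abs_neg]
      congr 1
      push_cast
      ring
  choose p' hp' using hqx
  obtain ⟨j, hj⟩ := hM q hq1 p'
  rw [hp' j] at hj
  have hpj := hp j
  rw [hXe] at hpj
  obtain ⟨w, hw⟩ : ∃ w : ℕ, v = m + k + u + w := ⟨v - (m + k) - u, by omega⟩
  rw [show v - (m + k) - u = w by omega] at hpj
  have hlogq : Real.log q ≤ T * Real.log b := by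
    have h1 := Real.log_le_log (by linarith) hqle
    rw [Real.log_mul hX0.ne' (by positivity), Real.log_pow] at h1
    have h2 : T * Real.log b = Real.log X + ((m + k + u : ℕ) : ℝ) * Real.log b := by
      rw [hT, M1, ← hX]
      push_cast
      field_simp
      ring
    rw [h2]
    exact h1
  have hlq0 : 0 ≤ Real.log q := Real.log_nonneg hq1R
  have h2 : c0 * (b : ℝ) ^ w ≤ (q : ℝ) ^ (μ - 1) * (1 + Real.log q) ^ A * X := by
    calc c0 * (b : ℝ) ^ w ≤ ((q : ℝ) ^ (μ - 1) * (1 + Real.log q) ^ A *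
          |((t.eval (b : ℤ) : ℤ) : ℝ) * (b : ℝ) ^ u * x j - p j|) * (b : ℝ) ^ w :=
          mul_le_mul_of_nonneg_right hj (by positivity)
      _ = (q : ℝ) ^ (μ - 1) * (1 + Real.log q) ^ A *
          (|((t.eval (b : ℤ) : ℤ) : ℝ) * (b : ℝ) ^ u * x j - p j| * (b : ℝ) ^ w) := by ring
      _ ≤ _ := mul_le_mul_of_nonneg_left hpj (by positivity)
  have h3 := Real.log_le_log (by positivity) h2
  rw [Real.log_mul hc0.ne' (by positivity), Real.log_pow,
    Real.log_mul (by positivity) hX0.ne', Real.log_mul (by positivity) (by positivity),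
    Real.log_rpow (by linarith), Real.log_rpow (by linarith)] at h3
  have h4 : Real.log (1 + Real.log q) ≤ Real.log (1 + T) + Real.log b := by
    have h5 : 1 + Real.log q ≤ (1 + T) * (1 + Real.log b) := by nlinarith
    have h6 := Real.log_le_log (by linarith) h5
    rw [Real.log_mul (by positivity) (by positivity)] at h6
    have h7 := Real.log_le_sub_one_of_pos (by linarith : 0 < 1 + Real.log b)
    linarith
  have h5 := mul_le_mul_of_nonneg_left h4 hA0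
  have h6 := mul_le_mul_of_nonneg_left hlogq (by linarith : 0 ≤ μ - 1)
  have h7 : -|Real.log c0| ≤ Real.log c0 := neg_abs_le _
  have h8 : M1 b m k K * Real.log b = (m + k) * Real.log b + Real.log X := by
    rw [M1, ← hX]
    field_simp
  have h9 : (v : ℝ) = m + k + u + w := by rw [hw]; push_cast; ring
  have h10 : Real.log (1 + T) ≤ 3 / 2 * Real.log (1 + T) * Real.log b := by nlinarith
  have h11 : |Real.log c0| ≤ 3 / 2 * |Real.log c0| * Real.log b := by nlinarith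
  have h12 := mul_le_mul_of_nonneg_left h10 hA0
  have h13 : (v : ℝ) * Real.log b ≤ (μ * T + (3 / 2 * A) * Real.log (1 + T) +
      (A + 3 / 2 * |Real.log c0|)) * Real.log b := by
    have e1 : T * Real.log b = u * Real.log b + ((m + k) * Real.log b + Real.log X) := by
      rw [hT, add_mul, h8]
    rw [h9]
    nlinarith
  exact le_of_mul_le_mul_right h13 hlb0

/-- **The general theorem.** -/
theorem general (hSM : S_SMALL) (hDE : S_DESC) (hAP : S_APPROX) (J : ℕ) (x : Fin J → ℝ)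
    (μ c0 A : ℝ) (hμ : 1 < μ) (hc0 : 0 < c0) (hA0 : 0 ≤ A) (hM : Meas J x μ c0 A) :
    ∃ C : ℝ, 0 < C ∧ ∀ b : ℕ, 2 ≤ b → ∀ (L m k : ℕ) (s : Fin J → ℕ → ℤ),
      (∀ j, ∀ i < L, |s j i| ≤ b) →
      (∃ E : Finset ℕ, E.card ≤ k ∧ ∀ i < L, i ∉ E → ∀ j, s j i = dig (x j) b (i + 1)) →
      (∃ c : ℕ → ℚ, ∀ j i, i + m < L → (s j (i + m) : ℚ) = ∑ l ∈ range m, c l * (s j (i + l) : ℚ)) →
      (L : ℝ) ≤ (∑ i ∈ range (k + 1), μ ^ (i + 1)) * (m + C * err m) := by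
  obtain ⟨α, hα⟩ : ∃ α : ℝ, α = 3 / 2 * A := ⟨_, rfl⟩
  obtain ⟨β, hβ⟩ : ∃ β : ℝ, β = A + 3 / 2 * |Real.log c0| := ⟨_, rfl⟩
  obtain ⟨B, hB⟩ : ∃ B : ℝ, B = α / (μ - 1) := ⟨_, rfl⟩
  have hα0 : 0 ≤ α := by rw [hα]; positivity
  have hβ0 : 0 ≤ β := by rw [hβ]; positivity
  have hμ1 : 0 < μ - 1 := by linarith
  have hB0 : 0 ≤ B := by rw [hB]; positivity
  have hB1 : α ≤ B * (μ - 1) := by
    rw [hB, div_mul_cancel₀ _ hμ1.ne']
  obtain ⟨C, hC0, hC⟩ := M2_le μ α β B hμ hα0 hβ0 hB0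
  refine ⟨C, hC0, ?_⟩
  rintro b hb L m k s hs ⟨E, hE, hdig⟩ ⟨c, hc⟩
  obtain ⟨k0, K, hk0, hK, hpar⟩ := params m
  have hbR : (2 : ℝ) ≤ b := by exact_mod_cast hb
  have hpar1 : M1 b m k0 K ≤ m + 15 * err m := hpar b hbR
  have hM1 := M1_ge b m k0 K hb
  have hm0 : (0 : ℝ) ≤ m := Nat.cast_nonneg m
  have hk00 : (0 : ℝ) ≤ k0 := Nat.cast_nonneg k0
  have hM10 : 0 ≤ M1 b m k0 K := by linarith
  have hfin := hC m (M1 b m k0 K) hM10 hpar1
  have hsum : (1 : ℝ) ≤ ∑ i ∈ range (k + 1), μ ^ (i + 1) := by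
    rw [Finset.sum_range_succ']
    have : 0 ≤ ∑ i ∈ range k, μ ^ (i + 1 + 1) := Finset.sum_nonneg fun i _ => by positivity
    simp only [zero_add, pow_one]
    linarith
  have herr := err_ge m
  have hfin0 : 0 ≤ (m : ℝ) + C * err m := by positivity
  have hM1le : M1 b m k0 K + 1 ≤ M2 μ α β B (M1 b m k0 K) + β := by
    unfold M2
    have h1 : 0 ≤ Real.log (1 + M1 b m k0 K) := Real.log_nonneg (by linarith)
    have h2 : 0 ≤ Real.log (2 + μ + α + β) := Real.log_nonneg (by linarith)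
    have h3 := mul_nonneg hB0 h1
    have h4 := mul_nonneg hB0 h2
    linarith
  have htriv : (L : ℝ) ≤ M1 b m k0 K + 1 →
      (L : ℝ) ≤ (∑ i ∈ range (k + 1), μ ^ (i + 1)) * (m + C * err m) := by
    intro h
    have : (m : ℝ) + C * err m ≤ (∑ i ∈ range (k + 1), μ ^ (i + 1)) * (m + C * err m) := by
      nlinarith
    linarith
  by_cases hL : m + k0 ≤ L
  swap
  · apply htriv
    have : (L : ℝ) ≤ m + k0 := by exact_mod_cast (by omega : L ≤ m + k0)
    linarith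
  by_cases hbig : (m + k0 + 1) * ((m + 1 + k0) * b) ^ K * b < b ^ (L - (m + k0))
  swap
  · apply htriv
    push Not at hbig
    have hlb0 : 0 < Real.log b := Real.log_pos (by linarith)
    have hb0 : (0 : ℝ) < b := by linarith
    have h1 : ((b : ℝ) ^ (L - (m + k0))) ≤
        ((m : ℝ) + k0 + 1) * (((m : ℝ) + 1 + k0) * b) ^ K * b := by exact_mod_cast hbig
    have h2 := Real.log_le_log (by positivity) h1
    rw [Real.log_pow, Real.log_mul (by positivity) (by positivity)] at h2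
    have h3 : ((L - (m + k0) : ℕ) : ℝ) = L - (m + k0) := by
      rw [Nat.cast_sub hL]; push_cast; ring
    rw [h3] at h2
    have h4 : (L : ℝ) - (m + k0) ≤
        Real.log (((m : ℝ) + k0 + 1) * (((m : ℝ) + 1 + k0) * b) ^ K) / Real.log b + 1 := by
      rw [← sub_le_iff_le_add, le_div_iff₀ hlb0]
      linarith
    unfold M1
    linarith
  -- truncate
  obtain ⟨a, ha⟩ : ∃ a : Fin J → ℕ → ℤ, a = fun j i => if i < L then s j i else 0 := ⟨_, rfl⟩
  have ha1 : ∀ j i, i < L → a j i = s j i := by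
    intro j i hi
    rw [ha]; simp [hi]
  have ha2 : ∀ j i, |a j i| ≤ b := by
    intro j i
    by_cases hi : i < L
    · rw [ha1 j i hi]; exact hs j i hi
    · rw [ha]; simp [hi]
  obtain ⟨t, ht0, htd, htH, htr⟩ := hSM J a b (by omega) ha2 m k0 (L - (m + k0)) L K hk0 hK
    (by omega) c (fun j i hi => by
      rw [ha1 j _ hi, hc j i hi]
      refine Finset.sum_congr rfl fun l hl => ?_
      rw [mem_range] at hl
      rw [ha1 j _ (by omega)])
  obtain ⟨t', htd', htH', htr', ht0'⟩ := hDE J a b b (((m + 1 + k0) * b) ^ K) (m + k0)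
    (L - (m + k0)) hb ha2 hbig t htd ht0 htH htr
  have hgap := gap hAP J x μ c0 A hμ hc0 hA0 hM b hb m k0 L K hL a t' htd' htH' htr' ht0'
  rw [← hα, ← hβ] at hgap
  have hmain := rec_final μ α β (M1 b m k0 K) B hμ hα0 hβ0 hM10 hB1 hB0 E L k hE
    (fun u v huv hvL hE' => hgap u v huv hvL (fun i h1 h2 j => by
      rw [ha1 j i (by omega)]
      refine hdig i (by omega) (fun hi => ?_) j
      rcases hE' i hi with h | h <;> omega))
  refine hmain.trans (mul_le_mul_of_nonneg_left hfin (by linarith))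

end Pool.Agent.W47.JL
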