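import Pool.Agent.W47.JL.Gen
import Pool.Agent.W472.AC.Joint

/-!
# Transference, general form (after helper515's proof for the powers of `e`)
-/

set_option autoImplicit false

namespace Pool.Agent.W47.JL

open Finset
open Pool.Agent.W472.AC (MeasL)

lemma pigeon (n q A : ℕ) (hq : 1 ≤ q) (hA : q < (A + 1) ^ n) (p : Fin n → ℤ) :
    ∃ d : Fin n → ℤ, d ≠ 0 ∧ (∀ j, |d j| ≤ A) ∧ (q : ℤ) ∣ ∑ j, d j * p j := by
  classical
  haveI : NeZero q := ⟨by omega⟩
  let F : (Fin n → Fin (A + 1)) → ZMod q :=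
    fun a => ∑ j : Fin n, ((a j : ℕ) : ZMod q) * ((p j : ℤ) : ZMod q)
  have hcard : Fintype.card (ZMod q) < Fintype.card (Fin n → Fin (A + 1)) := by
    rw [ZMod.card]
    simpa using hA
  obtain ⟨a, b, hab, hF⟩ := Fintype.exists_ne_map_eq_of_card_lt F hcard
  refine ⟨fun j => ((a j : ℕ) : ℤ) - (b j : ℕ), ?_, ?_, ?_⟩
  · intro h
    apply hab
    funext j
    have := congrFun h j
    simp at this
    apply Fin.ext
    omega
  · intro j
    beta_reduce
    have h1 := (a j).2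
    have h2 := (b j).2
    rw [abs_le]
    constructor <;> omega
  · rw [← ZMod.intCast_zmod_eq_zero_iff_dvd]
    have : F a - F b = 0 := by rw [hF, sub_self]
    rw [← this]
    simp only [F]
    rw [← Finset.sum_sub_distrib, Int.cast_sum]
    apply Finset.sum_congr rfl
    intro j _
    simp
    ring

theorem transGen (n : ℕ) (hn : 1 ≤ n) (x : Fin n → ℝ) (ε c0 : ℝ) (hε : 0 ≤ ε) (hc0 : 0 < c0)
    (h0 : MeasL x (n + n * ε) c0) :
    ∃ c : ℝ, 0 < c ∧ ∀ q : ℕ, 1 ≤ q → ∀ p : Fin n → ℤ, ∃ j : Fin n,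
      c ≤ (q : ℝ) ^ (1 / (n : ℝ) + ε) * |q * x j - p j| := by
  have hn0 : (0 : ℝ) < n := by exact_mod_cast hn
  have hn1 : (1 : ℝ) ≤ n := by exact_mod_cast hn
  set X : ℝ := 1 + ∑ j, |x j| with hX
  have hX1 : 1 ≤ X := by
    have : 0 ≤ ∑ j, |x j| := Finset.sum_nonneg fun j _ => abs_nonneg _
    linarith
  have hXj : ∀ j, |x j| ≤ X := by
    intro j
    have := Finset.single_le_sum (f := fun j => |x j|) (fun j _ => abs_nonneg _) (mem_univ j)
    linarith
  set E : ℝ := 2 * n * X with hE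
  have hE1 : 1 ≤ E := by
    rw [hE]
    nlinarith
  have hE0 : 0 < E := by linarith
  set M : ℝ := E ^ ((n : ℝ) + n * ε) with hM
  have hM0 : 0 < M := Real.rpow_pos_of_pos hE0 _
  refine ⟨min 1 (c0 / (2 * (M * n))), by positivity, ?_⟩
  intro q hq p
  set c : ℝ := min 1 (c0 / (2 * (M * n))) with hc
  have hcpos : 0 < c := by positivity
  have hc1 : c ≤ 1 := min_le_left _ _
  have hc2 : c ≤ c0 / (2 * (M * n)) := min_le_right _ _
  have hq1 : (1 : ℝ) ≤ q := by exact_mod_cast hq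
  have hq0 : (0 : ℝ) < q := by linarith
  by_contra hcon
  push Not at hcon
  set Q : ℝ := (q : ℝ) ^ (1 / (n : ℝ)) with hQ
  have hQ0 : 0 < Q := Real.rpow_pos_of_pos hq0 _
  have hQ1 : 1 ≤ Q := Real.one_le_rpow hq1 (by positivity)
  have hQn : Q ^ n = q := by
    rw [hQ, ← Real.rpow_natCast, ← Real.rpow_mul hq0.le]
    rw [one_div, inv_mul_cancel₀ hn0.ne', Real.rpow_one]
  set A : ℕ := ⌊Q⌋₊ with hA
  have hAQ : (A : ℝ) ≤ Q := Nat.floor_le hQ0.le
  have hQA : Q < A + 1 := Nat.lt_floor_add_one Q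
  have hAn : q < (A + 1) ^ n := by
    have : (q : ℝ) < ((A + 1 : ℕ) : ℝ) ^ n := by
      rw [← hQn]
      push_cast
      exact pow_lt_pow_left₀ hQA hQ0.le (by omega)
    exact_mod_cast this
  obtain ⟨d, hd0, hdA, ⟨z, hz⟩⟩ := pigeon n q A hq hAn p
  set R : ℝ := (q : ℝ) ^ (1 / (n : ℝ) + ε) with hR
  have hR0 : 0 < R := Real.rpow_pos_of_pos hq0 _
  have hR1 : 1 ≤ R := Real.one_le_rpow hq1 (by positivity)
  set δ : ℝ := c / R with hδ
  have hδ0 : 0 < δ := by positivity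
  have hδ1 : δ ≤ 1 := by
    rw [hδ, div_le_one hR0]
    linarith
  have hδj : ∀ j, |q * x j - p j| ≤ δ := by
    intro j
    have := hcon j
    rw [hδ, le_div_iff₀ hR0]
    linarith
  have hpj : ∀ j, |(p j : ℝ)| ≤ 2 * q * X := by
    intro j
    have h1 := hδj j
    have h3 : |(p j : ℝ)| ≤ |q * x j - p j| + |q * x j| := by
      have := abs_sub_abs_le_abs_sub (p j : ℝ) (q * x j)
      rw [abs_sub_comm] at this
      linarith
    have h4 : |q * x j| ≤ q * X := by
      rw [abs_mul, abs_of_pos hq0]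
      exact mul_le_mul_of_nonneg_left (hXj j) hq0.le
    have h6 : 1 ≤ q * X := by nlinarith
    linarith
  have hdR : ∀ j, |(d j : ℝ)| ≤ Q := by
    intro j
    have h1 : ((|d j| : ℤ) : ℝ) ≤ ((A : ℤ) : ℝ) := by exact_mod_cast hdA j
    rw [Int.cast_abs] at h1
    push_cast at h1
    linarith
  have hzR : (q : ℝ) * z = ∑ j, (d j : ℝ) * p j := by
    have : ((∑ j, d j * p j : ℤ) : ℝ) = ((q * z : ℤ) : ℝ) := by rw [hz]
    push_cast at this
    linarith
  -- bound for `z`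
  have hzb : |(z : ℝ)| ≤ E * Q := by
    have h1 : |(q : ℝ) * z| ≤ ∑ j : Fin n, Q * (2 * q * X) := by
      rw [hzR]
      refine (Finset.abs_sum_le_sum_abs _ _).trans (Finset.sum_le_sum fun j hj => ?_)
      rw [abs_mul]
      exact mul_le_mul (hdR j) (hpj j) (abs_nonneg _) hQ0.le
    rw [Finset.sum_const, card_univ, Fintype.card_fin, nsmul_eq_mul, abs_mul, abs_of_pos hq0] at h1
    have h2 : (q : ℝ) * |(z : ℝ)| ≤ q * (E * Q) := by
      rw [hE]
      linarith [h1, mul_comm (n : ℝ) Q]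
    exact le_of_mul_le_mul_left h2 hq0
  have hEQ : 1 ≤ E * Q := by nlinarith
  have key := h0 (-z) d (Or.inr hd0) (E * Q) hEQ (by
    push_cast
    rw [abs_neg]
    exact hzb) (fun j => by
    have := hdR j
    nlinarith)
  have hLq : (q : ℝ) * (((-z : ℤ) : ℝ) + ∑ j, (d j : ℝ) * x j) =
      ∑ j, (d j : ℝ) * (q * x j - p j) := by
    simp only [mul_sub]
    rw [Finset.sum_sub_distrib, ← hzR, mul_add, Finset.mul_sum]
    push_cast
    have : ∑ i, (q : ℝ) * ((d i : ℝ) * x i) = ∑ i, (d i : ℝ) * ((q : ℝ) * x i) :=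
      Finset.sum_congr rfl fun j _ => by ring
    rw [this]
    ring
  set L : ℝ := ((-z : ℤ) : ℝ) + ∑ j, (d j : ℝ) * x j with hLdef
  have hLb : q * |L| ≤ n * (Q * δ) := by
    have : |(q : ℝ) * L| ≤ ∑ j : Fin n, Q * δ := by
      rw [hLq]
      refine (Finset.abs_sum_le_sum_abs _ _).trans (Finset.sum_le_sum fun j hj => ?_)
      rw [abs_mul]
      exact mul_le_mul (hdR j) (hδj j) (abs_nonneg _) hQ0.le
    rw [Finset.sum_const, card_univ, Fintype.card_fin, nsmul_eq_mul, abs_mul,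
      abs_of_pos hq0] at this
    exact this
  -- powers
  have hpow : (E * Q) ^ ((n : ℝ) + n * ε) = M * (q * (q : ℝ) ^ ε) := by
    rw [Real.mul_rpow hE0.le hQ0.le, ← hM]
    congr 1
    rw [hQ, ← Real.rpow_mul hq0.le]
    have : 1 / (n : ℝ) * (n + n * ε) = 1 + ε := by
      field_simp
    rw [this, Real.rpow_add hq0, Real.rpow_one]
  have hRQ : R = Q * (q : ℝ) ^ ε := by
    rw [hR, hQ, ← Real.rpow_add hq0]
  have hqe : 0 < (q : ℝ) ^ ε := Real.rpow_pos_of_pos hq0 _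
  rw [hpow] at key
  have h1 : M * (q * (q : ℝ) ^ ε) * |L| ≤ M * (q : ℝ) ^ ε * (n * (Q * δ)) := by
    have : M * (q * (q : ℝ) ^ ε) * |L| = M * (q : ℝ) ^ ε * (q * |L|) := by ring
    rw [this]
    exact mul_le_mul_of_nonneg_left hLb (by positivity)
  have h2 : M * (q : ℝ) ^ ε * (n * (Q * δ)) = M * n * c := by
    rw [hδ, hRQ]
    field_simp
  have h3 : M * n * c ≤ c0 / 2 := by
    have : M * n * c ≤ M * n * (c0 / (2 * (M * n))) :=
      mul_le_mul_of_nonneg_left hc2 (by positivity)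
    refine this.trans (le_of_eq ?_)
    field_simp
  linarith

end Pool.Agent.W47.JL
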