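import Pool.Agent.W47.JL.Single
import Pool.Agent.W47.JL.TransGen

/-!
# Joint linear complexity of the digits of several numbers
-/

set_option autoImplicit false

namespace Pool.Agent.W47.JL

open Finset Polynomial Filter
open Pool.Agent.W472.AC (MeasL digit digitPoly LinRelation linComplexity)

/-- a common linear recurrence of order `m` of the first `L` digits -/
def IsJRec (b : ℕ) {n : ℕ} (x : Fin n → ℝ) (L m : ℕ) : Prop :=
  ∃ c : ℕ → ℚ, ∀ t : Fin n, ∀ i : ℕ, 1 ≤ i → i + m ≤ L →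
    (digit b (x t) (i + m) : ℚ) = ∑ j ∈ range m, c j * (digit b (x t) (i + j) : ℚ)

/-- the joint linear complexity -/
noncomputable def jComplexity (b : ℕ) {n : ℕ} (x : Fin n → ℝ) (L : ℕ) : ℕ :=
  sInf {m | IsJRec b x L m}

lemma isJRec_self (b : ℕ) {n : ℕ} (x : Fin n → ℝ) (L : ℕ) : IsJRec b x L L :=
  ⟨fun _ => 0, fun _ i h1 h2 => by omega⟩

lemma jmem (b : ℕ) {n : ℕ} (x : Fin n → ℝ) (L : ℕ) : IsJRec b x L (jComplexity b x L) :=
  Nat.sInf_mem (s := {m | IsJRec b x L m}) ⟨L, isJRec_self b x L⟩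

/-- no linear relations give common recurrences -/
theorem upJ (b : ℕ) {n : ℕ} (x : Fin n → ℝ) (L m : ℕ) (hm : m < L)
    (h : ¬ LinRelation b x (L - 1) (L - m - 1)) : IsJRec b x L m := by
  classical
  obtain ⟨r, hr⟩ : ∃ r, L = m + r + 1 := ⟨L - m - 1, by omega⟩
  have e1 : L - m = r + 1 := by omega
  set M : Matrix (Fin n × Fin (r + 1)) (Fin m) ℚ :=
    Matrix.of fun p l => (digit b (x p.1) ((p.2 : ℕ) + 1 + l) : ℚ) with hM
  have hli : LinearIndependent ℚ M.row := by
    rw [Fintype.linearIndependent_iff]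
    intro g hg
    set H : Fin n → ℚ[X] := fun t => ∑ i : Fin (r + 1), C (g (t, i)) * X ^ (r - (i : ℕ)) with hH
    have hHd : ∀ t, (H t).natDegree ≤ r := by
      intro t
      refine natDegree_sum_le_of_forall_le _ _ fun i _ => ?_
      exact (natDegree_C_mul_X_pow_le _ _).trans (Nat.sub_le _ _)
    set S : ℚ[X] := ∑ t, H t * digitPoly b (x t) (L - 1) with hS
    -- coefficients of `S`
    have hcoef : ∀ l : ℕ, l < m → S.coeff (r + 1 + l) = 0 := by
      intro l hl
      have h1 := congrFun hg ⟨l, hl⟩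
      rw [Finset.sum_apply] at h1
      simp only [Pi.smul_apply, smul_eq_mul, Matrix.row, hM, Matrix.of_apply, Pi.zero_apply] at h1
      rw [Fintype.sum_prod_type] at h1
      rw [hS, finsetSum_coeff]
      rw [← h1]
      refine Finset.sum_congr rfl fun t _ => ?_
      rw [hH]
      simp only
      rw [Finset.sum_mul, finsetSum_coeff]
      refine Finset.sum_congr rfl fun i _ => ?_
      have hi := i.2
      rw [mul_assoc, coeff_C_mul, coeff_X_pow_mul', if_pos (by omega)]
      congr 1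
      unfold digitPoly
      rw [finsetSum_coeff]
      simp only [coeff_C_mul, coeff_X_pow]
      rw [Finset.sum_eq_single ((i : ℕ) + 1 + l)]
      · rw [if_pos (by omega), mul_one]
      · intro j _ hj
        rw [if_neg (by omega), mul_zero]
      · intro hj
        rw [mem_Icc] at hj
        omega
    -- the correction
    set G : ℚ[X] := -∑ i ∈ range (r + 1), C (S.coeff i) * X ^ i with hG
    have hGd : G.natDegree ≤ r := by
      rw [hG, natDegree_neg]
      refine natDegree_sum_le_of_forall_le _ _ fun i hi => ?_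
      rw [mem_range] at hi
      exact (natDegree_C_mul_X_pow_le _ _).trans (by omega)
    have hGc : ∀ i ≤ r, G.coeff i = - S.coeff i := by
      intro i hi
      rw [hG, coeff_neg, finsetSum_coeff]
      simp only [coeff_C_mul, coeff_X_pow]
      rw [Finset.sum_eq_single i]
      · simp
      · intro j _ hj
        rw [if_neg (Ne.symm hj), mul_zero]
      · intro hj
        rw [mem_range] at hj
        omega
    have hdvd : X ^ (L - 1 + 1) ∣ G + ∑ t, H t * digitPoly b (x t) (L - 1) := by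
      rw [X_pow_dvd_iff]
      intro d hd
      rw [coeff_add, ← hS]
      by_cases hdr : d ≤ r
      · rw [hGc d hdr]; ring
      · rw [coeff_eq_zero_of_natDegree_lt (by omega), zero_add]
        obtain ⟨l, hl⟩ : ∃ l, d = r + 1 + l := ⟨d - (r + 1), by omega⟩
        rw [hl]
        exact hcoef l (by omega)
    have hH0 : H = 0 := by
      by_contra hne
      apply h
      rw [show L - m - 1 = r by omega]
      exact ⟨G, H, Or.inr hne, hGd, hHd, hdvd⟩
    rintro ⟨t, i⟩
    have h2 : (H t).coeff (r - (i : ℕ)) = 0 := by rw [hH0]; simp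
    rw [hH] at h2
    simp only [finsetSum_coeff, coeff_C_mul, coeff_X_pow] at h2
    rw [Finset.sum_eq_single i] at h2
    · simpa using h2
    · intro j _ hj
      have hi2 := i.2
      have hj2 := j.2
      rw [if_neg, mul_zero]
      intro h3
      apply hj
      apply Fin.ext
      omega
    · intro hi
      exact absurd (mem_univ i) hi
  have hrank := hli.rank_matrix
  have hsurj : LinearMap.range M.mulVecLin = ⊤ := by
    apply Submodule.eq_top_of_finrank_eq
    rw [Module.finrank_fintype_fun_eq_card]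
    exact hrank
  have hmem : (fun p : Fin n × Fin (r + 1) => (digit b (x p.1) ((p.2 : ℕ) + 1 + m) : ℚ)) ∈
      LinearMap.range M.mulVecLin := by
    rw [hsurj]; exact Submodule.mem_top
  obtain ⟨v, hv⟩ := hmem
  refine ⟨fun j => if h : j < m then v ⟨j, h⟩ else 0, fun t i h1 h2 => ?_⟩
  have h3 := congrFun hv (t, ⟨i - 1, by omega⟩)
  rw [Matrix.mulVecLin_apply, Matrix.mulVec, dotProduct] at h3
  simp only at h3
  rw [show i - 1 + 1 + m = i + m by omega] at h3
  rw [Finset.sum_range, ← h3]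
  refine Finset.sum_congr rfl fun j _ => ?_
  simp only [j.2, dif_pos, hM, Matrix.of_apply]
  rw [show i - 1 + 1 + (j : ℕ) = i + j by omega]
  ring

/-- lower bound with errors -/
theorem lowJ {n : ℕ} (hn : 1 ≤ n) (x : Fin n → ℝ)
    (hx : ∀ η : ℝ, 0 < η → ∃ c : ℝ, 0 < c ∧ MeasL x (n + η) c) (ε : ℝ) (hε : 0 < ε) :
    ∃ C : ℝ, 0 < C ∧ ∀ b : ℕ, 2 ≤ b → ∀ (L m k : ℕ) (s : Fin n → ℕ → ℤ),
      (∀ j, ∀ i < L, |s j i| ≤ b) →
      (∃ E : Finset ℕ, E.card ≤ k ∧
        ∀ i < L, i ∉ E → ∀ j, s j i = Pool.Agent.H831R3.LC.dig (x j) b (i + 1)) →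
      (∃ c : ℕ → ℚ, ∀ j i, i + m < L → (s j (i + m) : ℚ) = ∑ l ∈ range m, c l * (s j (i + l) : ℚ)) →
      (L : ℝ) ≤ (∑ i ∈ range (k + 1), (1 + 1 / (n : ℝ) + ε) ^ (i + 1)) * (m + C * err m) := by
  have hn0 : (0 : ℝ) < n := by exact_mod_cast hn
  obtain ⟨c0, hc0, h0⟩ := hx (n * ε) (by positivity)
  obtain ⟨c, hc, h⟩ := transGen n hn x ε c0 hε.le hc0 h0
  refine generalT n x (1 + 1 / (n : ℝ) + ε) c 0 ?_ hc le_rfl ?_
  · have : 0 < 1 / (n : ℝ) := by positivity
    linarith
  · intro q hq p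
    obtain ⟨j, hj⟩ := h q hq p
    refine ⟨j, ?_⟩
    rw [Real.rpow_zero, mul_one, show 1 + 1 / (n : ℝ) + ε - 1 = 1 / (n : ℝ) + ε by ring]
    exact hj

/-- `err m` is small compared with `L` for `m ≤ L` -/
lemma err_small (ε : ℝ) (hε : 0 < ε) : ∃ L₀ : ℕ, ∀ L : ℕ, L₀ ≤ L → ∀ m ≤ L, err m ≤ ε * L := by
  have h1 := (Real.isLittleO_log_id_atTop.comp_tendsto tendsto_natCast_atTop_atTop).def
    (show 0 < ε ^ 2 / 12 by positivity)
  have h2 := tendsto_natCast_atTop_atTop.eventually_gt_atTop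
    (12 / ε ^ 2 : ℝ)
  have hev := h1.and (h2.and (eventually_ge_atTop 2))
  rw [eventually_atTop] at hev
  obtain ⟨L₀, hL₀⟩ := hev
  refine ⟨L₀, fun L hL m hm => ?_⟩
  obtain ⟨h3, h4, h5⟩ := hL₀ L hL
  have hLR : (2 : ℝ) ≤ L := by exact_mod_cast h5
  have hmR : (m : ℝ) ≤ L := by exact_mod_cast hm
  have hm0 : (0 : ℝ) ≤ m := Nat.cast_nonneg m
  simp only [Function.comp, id] at h3
  rw [Real.norm_eq_abs, Real.norm_eq_abs, abs_of_nonneg (Real.log_nonneg (by linarith)),
    abs_of_nonneg (by linarith : (0 : ℝ) ≤ L)] at h3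
  unfold err
  rw [Real.sqrt_le_left (by positivity)]
  have h6 : Real.log ((m : ℝ) + 2) ≤ 1 + Real.log L := by
    have h7 : Real.log ((m : ℝ) + 2) ≤ Real.log (2 * L) :=
      Real.log_le_log (by linarith) (by linarith)
    rw [Real.log_mul (by norm_num) (by linarith)] at h7
    have := Real.log_two_lt_d9
    linarith
  have h8 : 0 ≤ Real.log ((m : ℝ) + 2) := Real.log_nonneg (by linarith)
  have h9 : 12 < ε ^ 2 * L := by
    rw [div_lt_iff₀ (by positivity)] at h4
    linarith
  calc ((m : ℝ) + 1) * Real.log ((m : ℝ) + 2) ≤ (2 * L) * (1 + Real.log L) := by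
        apply mul_le_mul (by linarith) h6 h8 (by linarith)
    _ ≤ (2 * L) * (ε ^ 2 / 12 * L + ε ^ 2 / 12 * L) := by
        apply mul_le_mul_of_nonneg_left _ (by linarith)
        linarith
    _ ≤ (ε * L) ^ 2 := by
        have : 0 ≤ (ε * (L : ℝ)) ^ 2 := by positivity
        nlinarith

/-- **Joint linear complexity.** -/
theorem joint {n : ℕ} (hn : 1 ≤ n) (x : Fin n → ℝ)
    (hx : ∀ η : ℝ, 0 < η → ∃ c : ℝ, 0 < c ∧ MeasL x (n + η) c) (ε : ℝ) (hε : 0 < ε) :
    ∃ L₀ : ℕ, ∀ L : ℕ, L₀ ≤ L → ∀ b : ℕ, 2 ≤ b →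
      |(jComplexity b x L : ℝ) - n * L / (n + 1)| < ε * L := by
  have hn0 : (0 : ℝ) < n := by exact_mod_cast hn
  have hn1 : (1 : ℝ) ≤ n := by exact_mod_cast hn
  -- lower bound
  obtain ⟨C, hC0, hC⟩ := lowJ hn x hx (ε / 4) (by positivity)
  obtain ⟨L₁, hL₁⟩ := err_small (ε / (4 * C)) (by positivity)
  -- upper bound
  obtain ⟨L₂, hL₂⟩ := Pool.Agent.W472.AC.lin_two_sided x hx (ε / 4) (by positivity)
  obtain ⟨L₃, hL₃⟩ := exists_nat_gt (8 / ε)
  refine ⟨L₁ + L₂ + L₃ + 2, fun L hL b hb => ?_⟩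
  have hLR : (2 : ℝ) ≤ L := by exact_mod_cast (by omega : 2 ≤ L)
  have hL3 : 8 < ε * L := by
    have h1 : (L₃ : ℝ) ≤ L := by exact_mod_cast (by omega : L₃ ≤ L)
    have h2 : 8 / ε < L := lt_of_lt_of_le hL₃ h1
    rw [div_lt_iff₀ hε] at h2
    linarith
  have hcle : jComplexity b x L ≤ L := Nat.sInf_le (isJRec_self b x L)
  rw [abs_lt]
  constructor
  · -- lower bound
    obtain ⟨c, hc⟩ := jmem b x L
    have h1 := hC b hb L (jComplexity b x L) 0 (fun t i => digit b (x t) (i + 1))
      (fun j i _ => Pool.Agent.H831R3.LC.dig_abs (x j) b (by omega) (i + 1))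
      ⟨∅, by simp, fun i _ _ j => rfl⟩
      ⟨c, fun j i hi => by
        have := hc j (i + 1) (by omega) (by omega)
        beta_reduce
        rw [show i + jComplexity b x L + 1 = i + 1 + jComplexity b x L by ring, this]
        refine Finset.sum_congr rfl fun l _ => ?_
        rw [show i + l + 1 = i + 1 + l by ring]⟩
    simp only [zero_add, Finset.sum_range_one, pow_one] at h1
    have h2 := hL₁ L (by omega) (jComplexity b x L) hcle
    have h3 : C * err (jComplexity b x L) ≤ ε / 4 * L := by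
      calc C * err (jComplexity b x L) ≤ C * (ε / (4 * C) * L) :=
            mul_le_mul_of_nonneg_left h2 hC0.le
        _ = ε / 4 * L := by field_simp
    have h4 : (L : ℝ) ≤ (1 + 1 / (n : ℝ) + ε / 4) * (jComplexity b x L + ε / 4 * L) := by
      refine h1.trans (mul_le_mul_of_nonneg_left (by linarith) (by positivity))
    obtain ⟨m, hm⟩ : ∃ m : ℝ, m = (jComplexity b x L : ℝ) := ⟨_, rfl⟩
    have hm0 : 0 ≤ m := by rw [hm]; positivity
    have hmL : m ≤ L := by rw [hm]; exact_mod_cast hcle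
    rw [← hm] at h4 ⊢
    -- `n L ≤ (n + 1 + n ε / 4) (m + ε L / 4)`
    have h5 : (n : ℝ) * L ≤ (n + 1 + n * (ε / 4)) * (m + ε / 4 * L) := by
      calc (n : ℝ) * L ≤ n * ((1 + 1 / (n : ℝ) + ε / 4) * (m + ε / 4 * L)) :=
            mul_le_mul_of_nonneg_left h4 hn0.le
        _ = (n + 1 + n * (ε / 4)) * (m + ε / 4 * L) := by field_simp
    have h6 : (n : ℝ) * L / (n + 1) - m < ε * L := by
      have hL0 : (0 : ℝ) < L := by linarith
      rw [sub_lt_iff_lt_add, div_lt_iff₀ (by linarith)]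
      rcases le_or_gt ε 1 with hε1 | hε1
      · have e1 : (n + 1 + n * (ε / 4)) * (m + ε / 4 * L) =
            (n + 1) * m + (n + 1) * (ε / 4 * L) + n * (ε / 4) * m + n * (ε / 4) * (ε / 4 * L) := by
          ring
        have e2 : (n : ℝ) * (ε / 4) * m ≤ n * (ε / 4) * L :=
          mul_le_mul_of_nonneg_left hmL (by positivity)
        have e3 : (n : ℝ) * (ε / 4) * (ε / 4 * L) ≤ n * (ε / 4) * (1 * L) := by
          refine mul_le_mul_of_nonneg_left ?_ (by positivity)
          exact mul_le_mul_of_nonneg_right (by linarith) hL0.le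
        have e4 : 0 < ε * L := by positivity
        have e5 : 0 < (n : ℝ) * (ε * L) := by positivity
        rw [e1] at h5
        have e6 : (ε * L + m) * ((n : ℝ) + 1) = n * (ε * L) + ε * L + (n + 1) * m := by ring
        rw [e6]
        have e7 : (n + 1) * (ε / 4 * L) = (n * (ε * L)) / 4 + (ε * L) / 4 := by ring
        have e8 : n * (ε / 4) * L = (n * (ε * L)) / 4 := by ring
        have e9 : n * (ε / 4) * (1 * L) = (n * (ε * L)) / 4 := by ring
        rw [e7] at h5
        rw [e8] at e2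
        rw [e9] at e3
        linarith
      · have e1 : (1 : ℝ) * L < ε * L := mul_lt_mul_of_pos_right hε1 hL0
        have e2 : (L : ℝ) * (n + 1) ≤ (ε * L + m) * (n + 1) :=
          mul_le_mul_of_nonneg_right (by linarith) (by linarith)
        linarith
    linarith
  · -- upper bound
    obtain ⟨m, hm⟩ : ∃ m : ℕ, m = ⌈(n : ℝ) * L / (n + 1) + ε / 2 * L⌉₊ := ⟨_, rfl⟩
    have hm1 : (n : ℝ) * L / (n + 1) + ε / 2 * L ≤ m := by rw [hm]; exact Nat.le_ceil _
    have hm2 : (m : ℝ) < (n : ℝ) * L / (n + 1) + ε / 2 * L + 1 := by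
      rw [hm]; exact Nat.ceil_lt_add_one (by positivity)
    have hle : jComplexity b x L ≤ m := by
      rcases le_or_gt L m with h1 | h1
      · exact hcle.trans h1
      refine Nat.sInf_le (upJ b x L m h1 fun hrel => ?_)
      have h2 : linComplexity b x (L - 1) ≤ L - m - 1 := Nat.sInf_le hrel
      have h3 := (hL₂ (L - 1) (by omega) b hb).1
      have h4 : ((L - m - 1 : ℕ) : ℝ) = L - m - 1 := by
        rw [Nat.sub_sub, Nat.cast_sub (by omega)]
        push_cast
        ring
      have h5 : ((L - 1 : ℕ) : ℝ) = L - 1 := by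
        rw [Nat.cast_sub (by omega)]
        push_cast
        ring
      have h6 : (linComplexity b x (L - 1) : ℝ) ≤ L - m - 1 := by
        rw [← h4]
        exact_mod_cast h2
      rw [h5] at h3
      have h7 : (n : ℝ) * L / (n + 1) = L - 1 / ((n : ℝ) + 1) * L := by
        field_simp
        ring
      have h8 : 1 / ((n : ℝ) + 1) ≤ 1 := by
        rw [div_le_one (by linarith)]
        linarith
      have h9 : 0 < 1 / ((n : ℝ) + 1) := by positivity
      nlinarith
    have hleR : (jComplexity b x L : ℝ) ≤ m := by exact_mod_cast hle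
    linarith

end Pool.Agent.W47.JL
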