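import Pool.Agent.W47.JL.Defs

/-!
# Project JL: numerical lemmas
-/

set_option autoImplicit false

namespace Pool.Agent.W47.JL

open Finset

/-- the constant of the recursion -/
noncomputable def M2 (μ α β B M1 : ℝ) : ℝ :=
  M1 + B * Real.log (1 + M1) + β + 1 + B * Real.log (2 + μ + α + β)

lemma pot (μ α β M1 B T e : ℝ) (hμ : 1 < μ) (hα : 0 ≤ α) (hβ : 0 ≤ β) (hM1 : 0 ≤ M1)
    (hB : α ≤ B * (μ - 1)) (hB0 : 0 ≤ B) (hT : 0 ≤ T) (he0 : 0 ≤ e)
    (he : e ≤ μ * T + α * Real.log (1 + T) + β) :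
    (e + 1 + M1) + B * Real.log (1 + (e + 1 + M1)) ≤
      μ * (T + B * Real.log (1 + T)) + M2 μ α β B M1 := by
  have hlT : Real.log (1 + T) ≤ T := by
    have := Real.log_le_sub_one_of_pos (by linarith : 0 < 1 + T)
    linarith
  have hlT0 : 0 ≤ Real.log (1 + T) := Real.log_nonneg (by linarith)
  have h1 : 1 + e + 1 ≤ (2 + μ + α + β) * (1 + T) := by
    nlinarith [mul_le_mul_of_nonneg_left hlT hα, mul_nonneg hβ hT]
  have h1' : 1 ≤ (2 + μ + α + β) * (1 + T) := by nlinarith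
  have h2 : 1 + (e + 1 + M1) ≤ (2 + μ + α + β) * (1 + T) * (1 + M1) := by
    nlinarith [mul_le_mul_of_nonneg_right h1' hM1]
  have h3 : Real.log (1 + (e + 1 + M1)) ≤
      Real.log (2 + μ + α + β) + Real.log (1 + T) + Real.log (1 + M1) := by
    calc Real.log (1 + (e + 1 + M1)) ≤ Real.log ((2 + μ + α + β) * (1 + T) * (1 + M1)) :=
          Real.log_le_log (by linarith) h2
      _ = _ := by
          rw [Real.log_mul (by positivity) (by positivity),
            Real.log_mul (by positivity) (by positivity)]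
  have h4 := mul_le_mul_of_nonneg_left h3 hB0
  have h5 := mul_le_mul_of_nonneg_right hB hlT0
  unfold M2
  nlinarith

theorem rec_bound (μ α β M1 B : ℝ) (hμ : 1 < μ) (hα : 0 ≤ α) (hβ : 0 ≤ β) (hM1 : 0 ≤ M1)
    (hB : α ≤ B * (μ - 1)) (hB0 : 0 ≤ B) (E : Finset ℕ) (L : ℕ)
    (hgap : ∀ u v : ℕ, u ≤ v → v ≤ L → (∀ i ∈ E, i < u ∨ v ≤ i) →
      (v : ℝ) ≤ μ * (u + M1) + α * Real.log (1 + (u + M1)) + β) :
    ∀ k v : ℕ, v ≤ L → (E.filter (· < v)).card ≤ k →
      ∃ T : ℝ, 0 ≤ T ∧ T + B * Real.log (1 + T) ≤ (∑ i ∈ range (k + 1), μ ^ i) * M2 μ α β B M1 ∧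
        (v : ℝ) ≤ μ * T + α * Real.log (1 + T) + β := by
  have hM2 : M1 + B * Real.log (1 + M1) ≤ M2 μ α β B M1 := by
    unfold M2
    have : 0 ≤ Real.log (2 + μ + α + β) := Real.log_nonneg (by linarith)
    nlinarith
  have hM20 : 0 ≤ M2 μ α β B M1 := by
    have : 0 ≤ Real.log (1 + M1) := Real.log_nonneg (by linarith)
    nlinarith
  -- no error before `v`
  have hfree : ∀ k v : ℕ, v ≤ L → E.filter (· < v) = ∅ →
      ∃ T : ℝ, 0 ≤ T ∧ T + B * Real.log (1 + T) ≤ (∑ i ∈ range (k + 1), μ ^ i) * M2 μ α β B M1 ∧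
        (v : ℝ) ≤ μ * T + α * Real.log (1 + T) + β := by
    intro k v hv hE
    have h1 := hgap 0 v (Nat.zero_le _) hv (fun i hi => by
      right
      by_contra h
      push Not at h
      have : i ∈ E.filter (· < v) := by
        rw [mem_filter]; exact ⟨hi, h⟩
      rw [hE] at this
      simp at this)
    refine ⟨M1, hM1, ?_, by simpa using h1⟩
    have h2 : (1 : ℝ) ≤ ∑ i ∈ range (k + 1), μ ^ i := by
      rw [Finset.sum_range_succ']
      have : 0 ≤ ∑ i ∈ range k, μ ^ (i + 1) := Finset.sum_nonneg fun i _ => by positivity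
      simp only [pow_zero]
      linarith
    nlinarith
  intro k
  induction k with
  | zero =>
    intro v hv hE
    exact hfree 0 v hv (card_eq_zero.1 (by omega))
  | succ k ih =>
    intro v hv hE
    by_cases hemp : E.filter (· < v) = ∅
    · exact hfree (k + 1) v hv hemp
    · have hne : (E.filter (· < v)).Nonempty := Finset.nonempty_iff_ne_empty.2 hemp
      set e := (E.filter (· < v)).max' hne with he
      have hemem : e ∈ E.filter (· < v) := Finset.max'_mem _ _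
      have hev : e < v := (mem_filter.1 hemem).2
      have hcard : (E.filter (· < e)).card ≤ k := by
        have hss : E.filter (· < e) ⊂ E.filter (· < v) := by
          rw [Finset.ssubset_iff_of_subset]
          · exact ⟨e, hemem, by simp⟩
          · intro i hi
            rw [mem_filter] at hi ⊢
            exact ⟨hi.1, by omega⟩
        have := Finset.card_lt_card hss
        omega
      obtain ⟨T, hT0, hT1, hT2⟩ := ih e (by omega) hcard
      refine ⟨(e : ℝ) + 1 + M1, by positivity, ?_, ?_⟩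
      · have h1 := pot μ α β M1 B T e hμ hα hβ hM1 hB hB0 hT0 (by positivity) hT2
        have h2 : (∑ i ∈ range (k + 1 + 1), μ ^ i) = μ * (∑ i ∈ range (k + 1), μ ^ i) + 1 := by
          rw [Finset.sum_range_succ', Finset.mul_sum]
          simp only [pow_zero, pow_succ]
          congr 1
          refine Finset.sum_congr rfl fun i _ => by ring
        rw [h2]
        nlinarith [mul_le_mul_of_nonneg_left hT1 (by linarith : 0 ≤ μ)]
      · have h1 := hgap (e + 1) v (by omega) hv (fun i hi => by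
          by_contra h
          push Not at h
          have : i ∈ E.filter (· < v) := by
            rw [mem_filter]; exact ⟨hi, by omega⟩
          have := Finset.le_max' _ _ this
          omega)
        push_cast at h1
        exact h1

/-- conclusion of the recursion -/
theorem rec_final (μ α β M1 B : ℝ) (hμ : 1 < μ) (hα : 0 ≤ α) (hβ : 0 ≤ β) (hM1 : 0 ≤ M1)
    (hB : α ≤ B * (μ - 1)) (hB0 : 0 ≤ B) (E : Finset ℕ) (L k : ℕ) (hE : E.card ≤ k)
    (hgap : ∀ u v : ℕ, u ≤ v → v ≤ L → (∀ i ∈ E, i < u ∨ v ≤ i) →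
      (v : ℝ) ≤ μ * (u + M1) + α * Real.log (1 + (u + M1)) + β) :
    (L : ℝ) ≤ (∑ i ∈ range (k + 1), μ ^ (i + 1)) * (M2 μ α β B M1 + β) := by
  obtain ⟨T, hT0, hT1, hT2⟩ := rec_bound μ α β M1 B hμ hα hβ hM1 hB hB0 E L hgap k L le_rfl
    ((Finset.card_filter_le _ _).trans hE)
  have hlT0 : 0 ≤ Real.log (1 + T) := Real.log_nonneg (by linarith)
  have h2 : (∑ i ∈ range (k + 1), μ ^ (i + 1)) = μ * (∑ i ∈ range (k + 1), μ ^ i) := by
    rw [Finset.mul_sum]
    refine Finset.sum_congr rfl fun i _ => by ring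
  have h3 : (1 : ℝ) ≤ ∑ i ∈ range (k + 1), μ ^ i := by
    rw [Finset.sum_range_succ']
    have : 0 ≤ ∑ i ∈ range k, μ ^ (i + 1) := Finset.sum_nonneg fun i _ => by positivity
    simp only [pow_zero]
    linarith
  rw [h2]
  have h4 := mul_le_mul_of_nonneg_left hT1 (by linarith : 0 ≤ μ)
  have h5 := mul_le_mul_of_nonneg_right hB hlT0
  have h6 : β ≤ μ * (∑ i ∈ range (k + 1), μ ^ i) * β := by
    have : 1 ≤ μ * (∑ i ∈ range (k + 1), μ ^ i) := by nlinarith
    nlinarith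
  have h7 : 0 ≤ B * Real.log (1 + T) := by positivity
  nlinarith

/-- the error term -/
noncomputable def err (m : ℕ) : ℝ := Real.sqrt (((m : ℝ) + 1) * Real.log ((m : ℝ) + 2))

lemma log_facts (m : ℕ) : 0.69 ≤ Real.log ((m : ℝ) + 2) ∧ Real.log ((m : ℝ) + 2) ≤ (m : ℝ) + 1 := by
  constructor
  · have h1 := Real.log_two_gt_d9
    have h2 := Real.log_le_log (by norm_num : (0 : ℝ) < 2)
      (by linarith [(Nat.cast_nonneg m : (0 : ℝ) ≤ m)] : (2 : ℝ) ≤ m + 2)
    linarith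
  · have := Real.log_le_sub_one_of_pos
      (by linarith [(Nat.cast_nonneg m : (0 : ℝ) ≤ m)] : 0 < (m : ℝ) + 2)
    linarith

lemma err_sq (m : ℕ) : err m ^ 2 = ((m : ℝ) + 1) * Real.log ((m : ℝ) + 2) := by
  obtain ⟨h1, h2⟩ := log_facts m
  unfold err
  rw [Real.sq_sqrt]
  have : (0 : ℝ) ≤ m := Nat.cast_nonneg m
  nlinarith

lemma err_ge (m : ℕ) : 0.83 ≤ err m := by
  obtain ⟨h1, h2⟩ := log_facts m
  unfold err
  apply Real.le_sqrt_of_sq_le
  have : (0 : ℝ) ≤ m := Nat.cast_nonneg m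
  nlinarith

lemma log_le_err (m : ℕ) : Real.log ((m : ℝ) + 2) ≤ err m := by
  obtain ⟨h1, h2⟩ := log_facts m
  unfold err
  apply Real.le_sqrt_of_sq_le
  nlinarith

lemma err_le (m : ℕ) : err m ≤ (m : ℝ) + 1 := by
  obtain ⟨h1, h2⟩ := log_facts m
  unfold err
  rw [Real.sqrt_le_left (by positivity)]
  have : (0 : ℝ) ≤ m := Nat.cast_nonneg m
  nlinarith

/-- the choice of the parameters -/
theorem params (m : ℕ) : ∃ k K : ℕ, 1 ≤ k ∧ m + 1 ≤ K * k ∧
    ∀ b : ℝ, 2 ≤ b →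
      ((m : ℝ) + k) + Real.log (((m : ℝ) + k + 1) * (((m : ℝ) + 1 + k) * b) ^ K) / Real.log b ≤
        m + 15 * err m := by
  obtain ⟨hl1, hl2⟩ := log_facts m
  have hsq := err_sq m
  have hs1 := err_ge m
  have hs2 := log_le_err m
  have hs3 := err_le m
  have hm0 : (0 : ℝ) ≤ m := Nat.cast_nonneg m
  obtain ⟨s, hs⟩ : ∃ s : ℝ, s = err m := ⟨_, rfl⟩
  rw [← hs] at hsq hs1 hs2 hs3 ⊢
  obtain ⟨k, hk⟩ : ∃ k : ℕ, k = ⌈s⌉₊ := ⟨_, rfl⟩
  have hk1 : s ≤ k := by rw [hk]; exact Nat.le_ceil _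
  have hk2 : (k : ℝ) < s + 1 := by rw [hk]; exact Nat.ceil_lt_add_one (by linarith)
  have hk0 : (0 : ℝ) < k := by linarith
  have hkpos : 1 ≤ k := by exact_mod_cast hk0
  obtain ⟨K, hK⟩ : ∃ K : ℕ, K = m / k + 1 := ⟨_, rfl⟩
  have hKk : m + 1 ≤ K * k := by
    rw [hK, add_mul, one_mul]
    have h1 := Nat.div_add_mod m k
    have h2 := Nat.mod_lt m (by omega : 0 < k)
    nlinarith
  have hKR : (K : ℝ) ≤ m / k + 1 := by
    rw [hK]; push_cast
    have := @Nat.cast_div_le ℝ _ _ _ m k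
    linarith
  refine ⟨k, K, hkpos, hKk, fun b hb => ?_⟩
  have hKs : (K : ℝ) * Real.log ((m : ℝ) + 2) ≤ s + Real.log ((m : ℝ) + 2) := by
    have h1 : (m : ℝ) / k ≤ (m + 1) / s := by
      apply div_le_div₀ (by positivity) (by linarith) (by linarith) hk1
    have h2 : (m + 1) / s * Real.log ((m : ℝ) + 2) = s := by
      rw [div_mul_eq_mul_div, ← hsq, pow_two, mul_div_assoc, div_self (by linarith), mul_one]
    have h3 : (K : ℝ) ≤ (m + 1) / s + 1 := by linarith
    have h4 := mul_le_mul_of_nonneg_right h3 (by linarith : 0 ≤ Real.log ((m : ℝ) + 2))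
    rw [add_mul, h2, one_mul] at h4
    exact h4
  have hK3 : (K : ℝ) ≤ 3 * s := by
    have h1 : (K : ℝ) * 0.69 ≤ K * Real.log ((m : ℝ) + 2) :=
      mul_le_mul_of_nonneg_left hl1 (Nat.cast_nonneg K)
    linarith
  have hlb : 0.69 ≤ Real.log b := by
    have h1 := Real.log_two_gt_d9
    have h2 := Real.log_le_log (by norm_num : (0 : ℝ) < 2) hb
    linarith
  have hlb0 : 0 < Real.log b := by linarith
  have hw : Real.log ((m : ℝ) + 1 + k) ≤ 2 * Real.log ((m : ℝ) + 2) := by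
    have h1 : Real.log ((m : ℝ) + 1 + k) ≤ Real.log (((m : ℝ) + 2) ^ 2) := by
      apply Real.log_le_log (by linarith)
      nlinarith
    rw [Real.log_pow] at h1
    exact_mod_cast h1
  have hw0 : 0 ≤ Real.log ((m : ℝ) + 1 + k) := Real.log_nonneg (by linarith)
  have e1 : Real.log (((m : ℝ) + k + 1) * (((m : ℝ) + 1 + k) * b) ^ K) =
      (K + 1) * Real.log ((m : ℝ) + 1 + k) + K * Real.log b := by
    rw [show (m : ℝ) + k + 1 = m + 1 + k by ring, Real.log_mul (by positivity) (by positivity),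
      Real.log_pow, Real.log_mul (by positivity) (by positivity)]
    ring
  have h5 : (K + 1) * Real.log ((m : ℝ) + 1 + k) ≤ 6 * s := by
    calc (K + 1) * Real.log ((m : ℝ) + 1 + k) ≤ (K + 1) * (2 * Real.log ((m : ℝ) + 2)) :=
          mul_le_mul_of_nonneg_left hw (by positivity)
      _ = 2 * (K * Real.log ((m : ℝ) + 2)) + 2 * Real.log ((m : ℝ) + 2) := by ring
      _ ≤ 6 * s := by linarith
  have h6 : Real.log (((m : ℝ) + k + 1) * (((m : ℝ) + 1 + k) * b) ^ K) / Real.log b ≤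
      9 * s + K := by
    rw [e1, div_le_iff₀ hlb0]
    nlinarith
  linarith

/-- size of the constant -/
theorem M2_le (μ α β B : ℝ) (hμ : 1 < μ) (hα : 0 ≤ α) (hβ : 0 ≤ β) (hB0 : 0 ≤ B) :
    ∃ C : ℝ, 0 < C ∧ ∀ (m : ℕ) (M1 : ℝ), 0 ≤ M1 → M1 ≤ m + 15 * err m →
      M2 μ α β B M1 + β ≤ m + C * err m := by
  have hl0 : 0 ≤ Real.log (2 + μ + α + β) := Real.log_nonneg (by linarith)
  refine ⟨15 + 5 * B + (2 * β + 1 + B * Real.log (2 + μ + α + β)) * 2, by positivity,
    fun m M1 h0 h1 => ?_⟩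
  obtain ⟨hl1, hl2⟩ := log_facts m
  have hs1 := err_ge m
  have hs2 := log_le_err m
  have hs3 := err_le m
  have hm0 : (0 : ℝ) ≤ m := Nat.cast_nonneg m
  have h2 : Real.log (1 + M1) ≤ 5 * err m := by
    have h3 : Real.log (1 + M1) ≤ Real.log (16 * ((m : ℝ) + 2)) :=
      Real.log_le_log (by linarith) (by linarith)
    rw [Real.log_mul (by norm_num) (by positivity),
      show (16 : ℝ) = 2 ^ 4 by norm_num, Real.log_pow] at h3
    have := Real.log_two_lt_d9
    push_cast at h3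
    linarith
  have h4 := mul_le_mul_of_nonneg_left h2 hB0
  have h5 : (2 * β + 1 + B * Real.log (2 + μ + α + β)) * 1 ≤
      (2 * β + 1 + B * Real.log (2 + μ + α + β)) * (2 * err m) :=
    mul_le_mul_of_nonneg_left (by linarith) (by positivity)
  unfold M2
  linarith

end Pool.Agent.W47.JL
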