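import Pool.Agent.W47.JL.Joint

/-!
# Joint linear complexity with an error term
-/

set_option autoImplicit false

namespace Pool.Agent.W47.JL

open Finset Polynomial Filter
open Pool.Agent.W472.AC (MeasL digit digitPoly DZ ev LinRelation linComplexity Meas measL_fract
  main_ineq ev_one ev_DZ_close digitPoly_eq digit_nonneg digit_le)

lemma DZ_coeff (x : ℝ) (b : ℕ) (hb : 1 ≤ b) (L i : ℕ) : |(DZ b x L).coeff i| ≤ (b : ℤ) := by
  unfold DZ
  rw [finsetSum_coeff]
  simp only [coeff_C_mul, coeff_X_pow]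
  by_cases h : i ∈ Icc 1 L
  · rw [Finset.sum_eq_single i]
    · rw [if_pos rfl, mul_one, abs_of_nonneg (digit_nonneg x b hb i)]
      exact digit_le x b hb i
    · intro j _ hj
      rw [if_neg (Ne.symm hj), mul_zero]
    · intro h'; exact absurd h h'
  · rw [Finset.sum_eq_zero]
    · rw [abs_zero]; positivity
    · intro j hj
      rw [if_neg, mul_zero]
      rintro rfl
      exact h hj

/-- the choice of the parameters -/
theorem params2 (n k : ℕ) : ∃ δ κ : ℕ, (n + 1) * (k + δ + 1) ≤ κ * (δ + 1) ∧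
    (δ : ℝ) ≤ 3 * err k ∧ (κ : ℝ) ≤ 4 * (n + 1) * err k ∧
    (κ : ℝ) * Real.log ((k : ℝ) + 2) ≤ 4 * (n + 1) * err k := by
  obtain ⟨hl1, hl2⟩ := log_facts k
  have hsq := err_sq k
  have hs1 := err_ge k
  have hs2 := log_le_err k
  have hs3 := err_le k
  have hm0 : (0 : ℝ) ≤ k := Nat.cast_nonneg k
  have hn0 : (0 : ℝ) ≤ n := Nat.cast_nonneg n
  obtain ⟨s, hs⟩ : ∃ s : ℝ, s = err k := ⟨_, rfl⟩
  rw [← hs] at hsq hs1 hs2 hs3 ⊢
  obtain ⟨δ, hδ⟩ : ∃ δ : ℕ, δ = ⌈s⌉₊ := ⟨_, rfl⟩
  have hδ1 : s ≤ δ := by rw [hδ]; exact Nat.le_ceil _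
  have hδ2 : (δ : ℝ) < s + 1 := by rw [hδ]; exact Nat.ceil_lt_add_one (by linarith)
  obtain ⟨κ, hκ⟩ : ∃ κ : ℕ, κ = (n + 1) * (k / (δ + 1) + 2) := ⟨_, rfl⟩
  have hκR : (κ : ℝ) ≤ (n + 1) * ((k : ℝ) / (δ + 1) + 2) := by
    rw [hκ]; push_cast
    have := @Nat.cast_div_le ℝ _ _ _ k (δ + 1)
    push_cast at this
    gcongr
  have hkl : (k : ℝ) / (δ + 1) * Real.log ((k : ℝ) + 2) ≤ s := by
    have h1 : (k : ℝ) / (δ + 1) ≤ (k + 1) / s := by
      apply div_le_div₀ (by positivity) (by linarith) (by linarith) (by linarith)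
    have h2 : (k + 1) / s * Real.log ((k : ℝ) + 2) = s := by
      rw [div_mul_eq_mul_div, ← hsq, pow_two, mul_div_assoc, div_self (by linarith), mul_one]
    have h4 := mul_le_mul_of_nonneg_right h1 (by linarith : 0 ≤ Real.log ((k : ℝ) + 2))
    rw [h2] at h4
    exact h4
  have hk0 : 0 ≤ (k : ℝ) / (δ + 1) := by positivity
  have hk2 : (k : ℝ) / (δ + 1) ≤ 3 / 2 * s := by nlinarith
  refine ⟨δ, κ, ?_, by linarith, ?_, ?_⟩
  · have h1 : k < (δ + 1) * (k / (δ + 1) + 1) := Nat.lt_mul_div_succ _ (by omega)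
    rw [hκ]
    calc (n + 1) * (k + δ + 1) ≤ (n + 1) * ((δ + 1) * (k / (δ + 1) + 1) + (δ + 1)) :=
          Nat.mul_le_mul_left _ (by omega)
      _ = (n + 1) * (k / (δ + 1) + 2) * (δ + 1) := by ring
  · refine hκR.trans ?_
    have : (k : ℝ) / (δ + 1) + 2 ≤ 4 * s := by linarith
    calc (n + 1) * ((k : ℝ) / (δ + 1) + 2) ≤ (n + 1) * (4 * s) :=
          mul_le_mul_of_nonneg_left this (by linarith)
      _ = 4 * (n + 1) * s := by ring
  · have h1 := mul_le_mul_of_nonneg_right hκR (by linarith : 0 ≤ Real.log ((k : ℝ) + 2))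
    refine h1.trans ?_
    have e : (n + 1) * ((k : ℝ) / (δ + 1) + 2) * Real.log ((k : ℝ) + 2) =
        (n + 1) * ((k : ℝ) / (δ + 1) * Real.log ((k : ℝ) + 2) + 2 * Real.log ((k : ℝ) + 2)) := by
      ring
    rw [e]
    calc (n + 1) * ((k : ℝ) / (δ + 1) * Real.log ((k : ℝ) + 2) + 2 * Real.log ((k : ℝ) + 2))
        ≤ (n + 1) * (4 * s) := by
          refine mul_le_mul_of_nonneg_left ?_ (by linarith)
          linarith
      _ = 4 * (n + 1) * s := by ring

/-- linear relations with an error term -/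
theorem linRate {n : ℕ} (x : Fin n → ℝ) (c : ℝ) (hc : 0 < c) (hx : MeasL x n c) :
    ∃ C : ℝ, 0 < C ∧ ∀ (L b k : ℕ), 2 ≤ b → LinRelation b x L k →
      (L : ℝ) ≤ (n + 1) * k + C * err k := by
  obtain ⟨c', hc', hM⟩ := measL_fract x n c hc hx
  have hn0 : (0 : ℝ) ≤ n := Nat.cast_nonneg n
  obtain ⟨a, ha⟩ : ∃ a : ℝ, a = Real.log (n + 1) + 3 := ⟨_, rfl⟩
  have hln : 0 ≤ Real.log ((n : ℝ) + 1) := Real.log_nonneg (by linarith)
  have ha0 : 3 ≤ a := by rw [ha]; linarith
  refine ⟨(n + 1) * 3 + 8 * (n + 2) * (4 * (n + 1)) * a + 8 * (n + 2) + 4 * a + 4 * |Real.log c'|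
    + 20, by positivity, fun L b k hb hrel => ?_⟩
  obtain ⟨g, h, hgh, hgk, hhk, hX⟩ := hrel
  obtain ⟨δ, κ, hκδ, hδ, hκ1, hκ2⟩ := params2 n k
  have hb1 : 1 ≤ b := by omega
  have hbR : (2 : ℝ) ≤ b := by exact_mod_cast hb
  have hb0 : (0 : ℝ) < b := by linarith
  obtain ⟨H, hH⟩ : ∃ H : ℕ, H = ((n + 1) * (k + δ + 1) * b) ^ κ := ⟨_, rfl⟩
  have hmain := main_ineq n k δ L b κ b hb hb1
    (Fin.cons 1 (fun s => Int.fract (x s)) : Fin (n + 1) → ℝ) n c' 1 hM
    (Fin.cons 1 (fun s => DZ b (x s) L))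
    (fun j i => by
      refine Fin.cases ?_ (fun s => ?_) j
      · rw [Fin.cons_zero, coeff_one]
        split_ifs
        · rw [abs_one]; exact_mod_cast hb1
        · rw [abs_zero]; positivity
      · rw [Fin.cons_succ]
        exact DZ_coeff (x s) b hb1 L i)
    (fun j => by
      refine Fin.cases ?_ (fun s => ?_) j
      · rw [Fin.cons_zero, Fin.cons_zero, ev_one, sub_self, abs_zero]
        positivity
      · rw [Fin.cons_succ, Fin.cons_succ]
        obtain ⟨h2, h3⟩ := ev_DZ_close (x s) b hb1 L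
        rw [abs_of_nonneg h2, one_mul]
        exact h3)
    (Fin.cons g h) (by
      intro h0
      rcases hgh with h1 | h1
      · exact h1 (congrFun h0 0)
      · exact h1 (funext fun s => congrFun h0 s.succ))
    (fun j => by
      refine Fin.cases ?_ (fun s => ?_) j
      · exact hgk
      · exact hhk s) (by
      rw [Fin.sum_univ_succ]
      simp only [Fin.cons_zero, Fin.cons_succ, Polynomial.map_one, mul_one, ← digitPoly_eq]
      exact hX) hκδ H hH
  -- logarithms
  have hs1 := err_ge k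
  have hs2 := log_le_err k
  have hs3 := err_le k
  obtain ⟨hl1, hl2⟩ := log_facts k
  have hm0 : (0 : ℝ) ≤ k := Nat.cast_nonneg k
  have hδ0 : (0 : ℝ) ≤ δ := Nat.cast_nonneg δ
  have hκ0 : (0 : ℝ) ≤ κ := Nat.cast_nonneg κ
  obtain ⟨s, hs⟩ : ∃ s : ℝ, s = err k := ⟨_, rfl⟩
  rw [← hs] at hs1 hs2 hs3 hδ hκ1 hκ2 ⊢
  have hH0 : 0 < H := by rw [hH]; positivity
  have hHR : (0 : ℝ) < H := by exact_mod_cast hH0
  have hlb : 0.69 ≤ Real.log b := by
    have h1 := Real.log_two_gt_d9
    have h2 := Real.log_le_log (by norm_num : (0 : ℝ) < 2) hbR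
    linarith
  have hlb0 : 0 < Real.log b := by linarith
  -- `log (k + δ + 1)`
  have hw : Real.log ((k : ℝ) + δ + 1) ≤ 2 * Real.log ((k : ℝ) + 2) + 2 := by
    have h1 : Real.log ((k : ℝ) + δ + 1) ≤ Real.log (4 * ((k : ℝ) + 2)) :=
      Real.log_le_log (by linarith) (by linarith)
    rw [Real.log_mul (by norm_num) (by linarith), show (4 : ℝ) = 2 ^ 2 by norm_num,
      Real.log_pow] at h1
    have := Real.log_two_lt_d9
    push_cast at h1
    linarith
  have hw0 : 0 ≤ Real.log ((k : ℝ) + δ + 1) := Real.log_nonneg (by linarith)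
  have hlogH : Real.log (H : ℝ) = κ * (Real.log (n + 1) + Real.log ((k : ℝ) + δ + 1) +
      Real.log b) := by
    rw [hH]
    push_cast
    rw [Real.log_pow, Real.log_mul (by positivity) (by positivity),
      Real.log_mul (by positivity) (by positivity)]
  have hlogH2 : Real.log (H : ℝ) ≤ (8 * (4 * (n + 1)) * a * s) * Real.log b := by
    rw [hlogH]
    have h1 : (κ : ℝ) * (Real.log (n + 1) + Real.log ((k : ℝ) + δ + 1) + Real.log b) ≤
        κ * (Real.log (n + 1) + 2) + 2 * (κ * Real.log ((k : ℝ) + 2)) + κ * Real.log b := by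
      have := mul_le_mul_of_nonneg_left hw hκ0
      linarith
    have h2 : (κ : ℝ) * (Real.log (n + 1) + 2) ≤ (4 * (n + 1) * s) * a := by
      apply mul_le_mul hκ1 (by rw [ha]; linarith) (by linarith) (by positivity)
    have h3 : (κ : ℝ) * Real.log b ≤ (4 * (n + 1) * s) * Real.log b :=
      mul_le_mul_of_nonneg_right hκ1 hlb0.le
    obtain ⟨z, hz⟩ : ∃ z : ℝ, z = 4 * ((n : ℝ) + 1) * s := ⟨_, rfl⟩
    have hz0 : 0 ≤ z := by rw [hz]; positivity
    rw [← hz] at h2 h3 hκ2
    have e : (8 * (4 * ((n : ℝ) + 1)) * a * s) = 8 * a * z := by rw [hz]; ring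
    rw [e]
    have h4 : z * a ≤ 2 * (z * a) * Real.log b := by
      have : 0 ≤ z * a := by positivity
      nlinarith
    have h5 : z ≤ z * a := by nlinarith
    have h6 : 0 ≤ z * a * Real.log b := by positivity
    nlinarith
  have hlogKb : Real.log (((k : ℝ) + δ + 1) * b + 1) ≤
      2 * Real.log ((k : ℝ) + 2) + 2 + 2 * Real.log b := by
    have h1 : ((k : ℝ) + δ + 1) * b + 1 ≤ ((k : ℝ) + δ + 1) * (b * b) := by
      have hY1 : (1 : ℝ) ≤ (k : ℝ) + δ + 1 := by linarith
      obtain ⟨y, hy⟩ : ∃ y : ℝ, y = ((k : ℝ) + δ + 1) * b := ⟨_, rfl⟩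
      have hYb : (2 : ℝ) ≤ y := by
        rw [hy]
        calc (2 : ℝ) = 1 * 2 := by norm_num
          _ ≤ ((k : ℝ) + δ + 1) * b := mul_le_mul hY1 hbR (by norm_num) (by linarith)
      have e : ((k : ℝ) + δ + 1) * (b * b) = y * b := by rw [hy]; ring
      rw [e, ← hy]
      nlinarith
    have h2 := Real.log_le_log (by positivity) h1
    rw [Real.log_mul (by positivity) (by positivity), Real.log_mul hb0.ne' hb0.ne'] at h2
    linarith
  have h1 := Real.log_le_log hc' hmain
  rw [Real.log_mul (by positivity) (by positivity), Real.log_rpow (by positivity),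
    Real.log_mul (by positivity) (by positivity), Real.log_mul (by positivity) (by positivity),
    Real.log_mul (by positivity) (by positivity), Real.log_mul (by positivity) (by positivity),
    Real.log_mul (by positivity) (by positivity), Real.log_mul (by positivity) (by positivity),
    Real.log_mul (by positivity) (by positivity), Real.log_pow, Real.log_pow,
    Real.log_div (by norm_num) hb0.ne', Real.log_one] at h1
  have hlog2 : Real.log 2 ≤ 1 := by have := Real.log_two_lt_d9; linarith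
  have hlog20 : 0 ≤ Real.log 2 := by positivity
  have hc2 : -|Real.log c'| ≤ Real.log c' := neg_abs_le _
  have hc3 : 0 ≤ |Real.log c'| := abs_nonneg _
  push_cast at h1
  -- collect
  have h2 : (L : ℝ) * Real.log b ≤ (n + 1) * ((k + δ) * Real.log b) + (n + 1) * Real.log H +
      n * Real.log 2 + Real.log 2 + Real.log (n + 1) +
      (2 * Real.log ((k : ℝ) + 2) + 2 + 2 * Real.log b) + |Real.log c'| := by
    linarith
  have h3 : ((n : ℝ) + 1) * Real.log H ≤ (n + 1) * ((8 * (4 * (n + 1)) * a * s) * Real.log b) :=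
    mul_le_mul_of_nonneg_left hlogH2 (by linarith)
  have key : (L : ℝ) * Real.log b ≤ ((n + 1) * k + ((n + 1) * 3 + 8 * (n + 2) * (4 * (n + 1)) * a +
      8 * (n + 2) + 4 * a + 4 * |Real.log c'| + 20) * s) * Real.log b := by
    have t1 : ((n : ℝ) + 1) * (δ * Real.log b) ≤ ((n + 1) * 3 * s) * Real.log b := by
      calc ((n : ℝ) + 1) * (δ * Real.log b) ≤ (n + 1) * ((3 * s) * Real.log b) := by gcongr
        _ = _ := by ring
    have t2 : ((n : ℝ) + 1) * ((8 * (4 * (n + 1)) * a * s) * Real.log b) ≤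
        (8 * (n + 2) * (4 * (n + 1)) * a * s) * Real.log b := by
      have : 0 ≤ (8 * (4 * ((n : ℝ) + 1)) * a * s) * Real.log b := by positivity
      nlinarith
    have t3 : (1 : ℝ) ≤ 2 * s * Real.log b := by nlinarith
    have t4 : (n : ℝ) * Real.log 2 + Real.log 2 + 2 ≤ (n + 3) := by nlinarith
    have t5 : ((n : ℝ) + 3) ≤ (n + 3) * (2 * s * Real.log b) := by nlinarith
    have t6 : Real.log ((n : ℝ) + 1) ≤ a := by rw [ha]; linarith
    have t7 : a ≤ a * (2 * s * Real.log b) := by nlinarith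
    have t8 : |Real.log c'| ≤ |Real.log c'| * (2 * s * Real.log b) := by nlinarith
    have t9 : 2 * Real.log ((k : ℝ) + 2) ≤ 2 * (2 * s * Real.log b) := by nlinarith
    have t10 : 2 * Real.log b ≤ 4 * s * Real.log b := by nlinarith
    have t11 : 0 ≤ s * Real.log b := by positivity
    have t12 : 0 ≤ |Real.log c'| * (s * Real.log b) := by positivity
    have t13 : 0 ≤ (n : ℝ) * (s * Real.log b) := by positivity
    have t14 : 0 ≤ a * (s * Real.log b) := by positivity
    nlinarith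
  exact le_of_mul_le_mul_right key hlb0

end Pool.Agent.W47.JL
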