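import Pool.Agent.W47.JL.Rate

/-!
# Joint linear complexity with an error term: conclusion
-/

set_option autoImplicit false

namespace Pool.Agent.W47.JL

open Finset Polynomial Filter
open Pool.Agent.W472.AC (MeasL digit LinRelation)

lemma err_mono {m k : ℕ} (h : m ≤ k) : err m ≤ err k := by
  have hR : (m : ℝ) ≤ k := by exact_mod_cast h
  have h0 : (0 : ℝ) ≤ m := Nat.cast_nonneg m
  unfold err
  apply Real.sqrt_le_sqrt
  have h1 : Real.log ((m : ℝ) + 2) ≤ Real.log ((k : ℝ) + 2) :=
    Real.log_le_log (by linarith) (by linarith)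
  have h2 : 0 ≤ Real.log ((m : ℝ) + 2) := Real.log_nonneg (by linarith)
  nlinarith

/-- **Joint linear complexity with an error term.** -/
theorem jointRate {n : ℕ} (hn : 1 ≤ n) (x : Fin n → ℝ) (c : ℝ) (hc : 0 < c)
    (hx : MeasL x n c) :
    ∃ C : ℝ, 0 < C ∧ ∀ L b : ℕ, 2 ≤ b →
      |(jComplexity b x L : ℝ) - n * L / (n + 1)| ≤ C * err L := by
  have hn0 : (0 : ℝ) < n := by exact_mod_cast hn
  have hn1 : (1 : ℝ) ≤ n := by exact_mod_cast hn
  -- lower bound
  obtain ⟨c1, hc1, h1⟩ := transGen n hn x 0 c le_rfl hc (by simpa using hx)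
  obtain ⟨C1, hC10, hC1⟩ := generalT n x (1 + 1 / (n : ℝ)) c1 0
    (by
      have : 0 < 1 / (n : ℝ) := by positivity
      linarith) hc1 le_rfl (by
    intro q hq p
    obtain ⟨j, hj⟩ := h1 q hq p
    refine ⟨j, ?_⟩
    rw [Real.rpow_zero, mul_one, show 1 + 1 / (n : ℝ) - 1 = 1 / (n : ℝ) + 0 by ring]
    exact hj)
  -- upper bound
  obtain ⟨C2, hC20, hC2⟩ := linRate x c hc hx
  refine ⟨C1 + C2 + 6, by positivity, fun L b hb => ?_⟩
  have hcle : jComplexity b x L ≤ L := Nat.sInf_le (isJRec_self b x L)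
  have hL0 : (0 : ℝ) ≤ L := Nat.cast_nonneg L
  have herr := err_ge L
  have hone : (1 : ℝ) ≤ 2 * err L := by linarith
  rw [abs_le]
  constructor
  · -- lower bound
    obtain ⟨r, hr⟩ := jmem b x L
    have h2 := hC1 b hb L (jComplexity b x L) 0 (fun t i => digit b (x t) (i + 1))
      (fun j i _ => Pool.Agent.H831R3.LC.dig_abs (x j) b (by omega) (i + 1))
      ⟨∅, by simp, fun i _ _ j => rfl⟩
      ⟨r, fun j i hi => by
        have := hr j (i + 1) (by omega) (by omega)
        beta_reduce
        rw [show i + jComplexity b x L + 1 = i + 1 + jComplexity b x L by ring, this]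
        refine Finset.sum_congr rfl fun l _ => ?_
        rw [show i + l + 1 = i + 1 + l by ring]⟩
    simp only [zero_add, Finset.sum_range_one, pow_one] at h2
    have h3 : (n : ℝ) * L / (n + 1) ≤ jComplexity b x L + C1 * err (jComplexity b x L) := by
      rw [div_le_iff₀ (by linarith)]
      calc (n : ℝ) * L ≤ n * ((1 + 1 / (n : ℝ)) *
            (jComplexity b x L + C1 * err (jComplexity b x L))) :=
            mul_le_mul_of_nonneg_left h2 hn0.le
        _ = (jComplexity b x L + C1 * err (jComplexity b x L)) * (n + 1) := by field_simp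
    have h4 := mul_le_mul_of_nonneg_left (err_mono hcle) hC10.le
    have h5 : 0 ≤ (C2 + 6) * err L := by positivity
    linarith
  · -- upper bound
    obtain ⟨m, hm⟩ : ∃ m : ℕ, m = ⌈(n : ℝ) * L / (n + 1) + (C2 + 2) * err L⌉₊ := ⟨_, rfl⟩
    have hm1 : (n : ℝ) * L / (n + 1) + (C2 + 2) * err L ≤ m := by rw [hm]; exact Nat.le_ceil _
    have hm2 : (m : ℝ) < (n : ℝ) * L / (n + 1) + (C2 + 2) * err L + 1 := by
      rw [hm]; exact Nat.ceil_lt_add_one (by positivity)
    have hle : jComplexity b x L ≤ m := by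
      rcases le_or_gt L m with h2 | h2
      · exact hcle.trans h2
      refine Nat.sInf_le (upJ b x L m h2 fun hrel => ?_)
      have h3 := hC2 (L - 1) b (L - m - 1) hb hrel
      have h4 : ((L - m - 1 : ℕ) : ℝ) = L - m - 1 := by
        rw [Nat.sub_sub, Nat.cast_sub (by omega)]
        push_cast
        ring
      have h5 : ((L - 1 : ℕ) : ℝ) = L - 1 := by
        rw [Nat.cast_sub (by omega)]
        push_cast
        ring
      have h6 := mul_le_mul_of_nonneg_left (err_mono (show L - m - 1 ≤ L by omega)) hC20.le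
      rw [h4, h5] at h3
      have h7 : ((n : ℝ) + 1) * ((n : ℝ) * L / (n + 1)) = n * L := by field_simp
      have h8 := mul_le_mul_of_nonneg_left hm1 (by linarith : (0 : ℝ) ≤ n + 1)
      rw [mul_add, h7] at h8
      have h9 : (C2 + 2) * err L ≤ (n + 1) * ((C2 + 2) * err L) := by
        have : 0 ≤ (C2 + 2) * err L := by positivity
        nlinarith
      have h10 : ((n : ℝ) + 1) * (L - m - 1) = n * L + L - (n + 1) * m - n - 1 := by ring
      rw [h10] at h3
      linarith
    have hleR : (jComplexity b x L : ℝ) ≤ m := by exact_mod_cast hle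
    have h3 : 0 ≤ C1 * err L := by positivity
    linarith

end Pool.Agent.W47.JL
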