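import Pool.Agent.W47.JL.Gen
import Pool.Agent.W928.JL.SMALL
import Pool.Agent.W639.JL.DESC
import Pool.Agent.W45.JL.APPROX

/-!
# Project JL: the general theorem for one number
-/

set_option autoImplicit false

namespace Pool.Agent.W47.JL

open Finset Polynomial
open Pool.Agent.H831R3.LC (W dig dig_abs)

/-- the general theorem without hypotheses -/
theorem generalT (J : ℕ) (x : Fin J → ℝ)
    (μ c0 A : ℝ) (hμ : 1 < μ) (hc0 : 0 < c0) (hA0 : 0 ≤ A) (hM : Meas J x μ c0 A) :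
    ∃ C : ℝ, 0 < C ∧ ∀ b : ℕ, 2 ≤ b → ∀ (L m k : ℕ) (s : Fin J → ℕ → ℤ),
      (∀ j, ∀ i < L, |s j i| ≤ b) →
      (∃ E : Finset ℕ, E.card ≤ k ∧ ∀ i < L, i ∉ E → ∀ j, s j i = dig (x j) b (i + 1)) →
      (∃ c : ℕ → ℚ, ∀ j i, i + m < L → (s j (i + m) : ℚ) = ∑ l ∈ range m, c l * (s j (i + l) : ℚ)) →
      (L : ℝ) ≤ (∑ i ∈ range (k + 1), μ ^ (i + 1)) * (m + C * err m) :=
  general Pool.Agent.W928.JL.small Pool.Agent.W639.JL.desc Pool.Agent.W45.JL.approx J x μ c0 A hμ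
    hc0 hA0 hM

lemma geom (μ : ℝ) (hμ : 1 < μ) (k : ℕ) :
    (∑ i ∈ range (k + 1), μ ^ (i + 1)) = (μ ^ (k + 2) - μ) / (μ - 1) := by
  rw [eq_div_iff (by linarith : μ - 1 ≠ 0)]
  induction k with
  | zero => simp; ring
  | succ k ih => rw [Finset.sum_range_succ, add_mul, ih]; ring

/-- one number, digits indexed from `1` -/
theorem single (x μ c0 A : ℝ) (hμ : 1 < μ) (hc0 : 0 < c0) (hA0 : 0 ≤ A)
    (hx : ∀ q : ℕ, 1 ≤ q → ∀ p : ℤ, c0 ≤ (q : ℝ) ^ (μ - 1) * (1 + Real.log q) ^ A * |q * x - p|) :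
    ∃ C : ℝ, 0 < C ∧ ∀ b : ℕ, 2 ≤ b → ∀ (L m k : ℕ) (s : ℕ → ℤ),
      (∀ i, |s i| ≤ b) →
      ((Icc 1 L).filter fun i => s i ≠ ⌊x * (b : ℝ) ^ i⌋ % (b : ℤ)).card ≤ k →
      (∃ c : ℕ → ℚ, ∀ i, 1 ≤ i → i + m ≤ L →
        (s (i + m) : ℚ) = ∑ j ∈ range m, c j * (s (i + j) : ℚ)) →
      (L : ℝ) ≤ (μ ^ (k + 2) - μ) / (μ - 1) *
        (m + C * Real.sqrt (((m : ℝ) + 1) * Real.log ((m : ℝ) + 2))) := by
  obtain ⟨C, hC0, hC⟩ := generalT 1 (fun _ => x) μ c0 A hμ hc0 hA0 (fun q hq p => ⟨0, hx q hq (p 0)⟩)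
  refine ⟨C, hC0, fun b hb L m k s hs hE hrec => ?_⟩
  obtain ⟨c, hc⟩ := hrec
  have h := hC b hb L m k (fun _ i => s (i + 1)) (fun _ i _ => hs _)
    ⟨((Icc 1 L).filter fun i => s i ≠ ⌊x * (b : ℝ) ^ i⌋ % (b : ℤ)).image (· - 1),
      Finset.card_image_le.trans hE, fun i hi hiE j => by
        by_contra hne
        apply hiE
        rw [mem_image]
        exact ⟨i + 1, by
          rw [mem_filter, mem_Icc]
          exact ⟨⟨by omega, by omega⟩, hne⟩, by omega⟩⟩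
    ⟨c, fun j i hi => by
      have := hc (i + 1) (by omega) (by omega)
      rw [show i + m + 1 = i + 1 + m by ring, this]
      refine Finset.sum_congr rfl fun l _ => ?_
      rw [show i + l + 1 = i + 1 + l by ring]⟩
  rw [geom μ hμ] at h
  exact h

end Pool.Agent.W47.JL
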